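import Mathlib

/-!
# MP_f4ff90_ag: the question for all rational self-maps and quadratic recurrences: definitions
-/

set_option autoImplicit false

namespace MP_f4ff90_agQ

open MvPolynomial

/-- A set of natural numbers which is periodic from some point on (up to a finite set it is a finite
union of arithmetic progressions). -/
def EvPer (S : Set ℕ) : Prop := ∃ q N : ℕ, 0 < q ∧ ∀ n, N ≤ n → (n + q ∈ S ↔ n ∈ S)

/-- `y` is a well-defined orbit of the rational map given by `F` on the variety of `P`: for every `n`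
the map has a representation by homogeneous polynomials `G` which do not all vanish at `y n`, and they
give `y (n + 1)`. -/
def IsOrbit {N : ℕ} (P : Ideal (MvPolynomial (Fin (N + 1)) (AlgebraicClosure ℚ)))
    (F : Fin (N + 1) → MvPolynomial (Fin (N + 1)) (AlgebraicClosure ℚ))
    (y : ℕ → Fin (N + 1) → AlgebraicClosure ℚ) : Prop :=
  y 0 ≠ 0 ∧ (∀ p ∈ P, eval (y 0) p = 0) ∧
  ∀ n : ℕ, ∃ (e : ℕ) (G : Fin (N + 1) → MvPolynomial (Fin (N + 1)) (AlgebraicClosure ℚ)),
    (∀ i, (G i).IsHomogeneous e) ∧ (∃ i, G i ∉ P) ∧ (∀ i j, F i * G j - F j * G i ∈ P) ∧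
    (∃ i, eval (y n) (G i) ≠ 0) ∧
    ∃ c : AlgebraicClosure ℚ, c ≠ 0 ∧ y (n + 1) = c • (fun i => eval (y n) (G i))

/-- The question (the text of the frozen statement S00551). -/
def Question : Prop :=
    ∀ (N : ℕ) (P : Ideal (MvPolynomial (Fin (N+1)) (AlgebraicClosure ℚ))),
      P.IsPrime →
      (∀ p ∈ P, ∀ k : ℕ, MvPolynomial.homogeneousComponent k p ∈ P) →
      (∃ i, (MvPolynomial.X i : MvPolynomial (Fin (N+1)) (AlgebraicClosure ℚ)) ∉ P) →
      ∀ (d : ℕ) (F : Fin (N+1) → MvPolynomial (Fin (N+1)) (AlgebraicClosure ℚ)),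
        (∀ i, (F i).IsHomogeneous d) →
        (∃ i, F i ∉ P) →
        (∀ p ∈ P, MvPolynomial.bind₁ F p ∈ P) →
        (∀ p, MvPolynomial.bind₁ F p ∈ P → p ∈ P) →
        ∀ y : ℕ → Fin (N+1) → AlgebraicClosure ℚ,
          y 0 ≠ 0 →
          (∀ p ∈ P, MvPolynomial.eval (y 0) p = 0) →
          (∀ n : ℕ, ∃ (e : ℕ) (G : Fin (N+1) → MvPolynomial (Fin (N+1)) (AlgebraicClosure ℚ)),
              (∀ i, (G i).IsHomogeneous e) ∧
              (∃ i, G i ∉ P) ∧
              (∀ i j, F i * G j - F j * G i ∈ P) ∧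
              (∃ i, MvPolynomial.eval (y n) (G i) ≠ 0) ∧
              ∃ c : AlgebraicClosure ℚ, c ≠ 0 ∧
                y (n+1) = c • (fun i => MvPolynomial.eval (y n) (G i))) →
          (∀ (k : ℕ) (H : MvPolynomial (Fin (N+1)) (AlgebraicClosure ℚ)),
              H.IsHomogeneous k → (∀ n, MvPolynomial.eval (y n) H = 0) → H ∈ P) →
          ∀ (k : ℕ) (H : MvPolynomial (Fin (N+1)) (AlgebraicClosure ℚ)),
            H.IsHomogeneous k → H ∉ P →
            {n : ℕ | MvPolynomial.eval (y n) H = 0}.Finite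

/-- The dynamical Mordell-Lang property of all rational self-maps of projective varieties over the
algebraic numbers: `𝓗` is any set of homogeneous polynomials (the equations of a closed subset). -/
def MordellLang : Prop :=
    ∀ (N : ℕ) (P : Ideal (MvPolynomial (Fin (N + 1)) (AlgebraicClosure ℚ))),
      P.IsPrime →
      (∀ p ∈ P, ∀ k : ℕ, homogeneousComponent k p ∈ P) →
      ∀ (d : ℕ) (F : Fin (N + 1) → MvPolynomial (Fin (N + 1)) (AlgebraicClosure ℚ)),
        (∀ i, (F i).IsHomogeneous d) →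
        (∃ i, F i ∉ P) →
        (∀ p ∈ P, bind₁ F p ∈ P) →
        ∀ y : ℕ → Fin (N + 1) → AlgebraicClosure ℚ, IsOrbit P F y →
          ∀ 𝓗 : Set (MvPolynomial (Fin (N + 1)) (AlgebraicClosure ℚ)),
            (∀ H ∈ 𝓗, ∃ k : ℕ, H.IsHomogeneous k) →
            EvPer {n : ℕ | ∀ H ∈ 𝓗, eval (y n) H = 0}

/-- The same for the polynomial self-maps of affine spaces over the integers. -/
def IntegerMaps : Prop :=
    ∀ (ι : Type) [Fintype ι] (P : ι → MvPolynomial ι ℤ) (x : ℕ → ι → ℤ),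
      (∀ n i, x (n + 1) i = eval (x n) (P i)) →
      ∀ h : MvPolynomial ι ℤ, EvPer {n : ℕ | eval (x n) h = 0}

/-- The zeros of the integer sequences `1, 1, 0, …, 0, …` which satisfy a recurrence given by a
quadratic form with coefficients `-1, 0, 1`. -/
def QuadraticRecurrences : Prop :=
    ∀ (M : ℕ) (ε : ℕ → ℕ → ℤ) (a : ℕ → ℤ), 2 ≤ M →
      (∀ i j, ε i j = -1 ∨ ε i j = 0 ∨ ε i j = 1) →
      a 0 = 1 → a 1 = 1 → (∀ n, 2 ≤ n → n < M → a n = 0) →
      (∀ n, a (n + M) = ∑ j ∈ Finset.range M, ∑ i ∈ Finset.range j, ε i j * (a (n + i) * a (n + j))) →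
      EvPer {n : ℕ | a n = 0}

end MP_f4ff90_agQ
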