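import Pool.Agent.Lib.MP_f4ff90_agQ.Defs

/-!
# Digits and growth
-/

set_option autoImplicit false

namespace MP_f4ff90_agQ

open Finset

/-- The digits of zero vanish. -/
theorem digits (t : ℤ) : ∀ (r : ℕ) (a : ℕ → ℤ), (∀ k < r, 2 * |a k| < t) → ∑ k ∈ range r, t ^ k * a k = 0 →
    ∀ k < r, a k = 0 := by
  intro r
  induction r with
  | zero => intro a _ _ k hk; omega
  | succ r ih =>
    intro a ha hs
    rw [Finset.sum_range_succ'] at hs
    have h1 : ∑ k ∈ range r, t ^ (k + 1) * a (k + 1) = t * ∑ k ∈ range r, t ^ k * a (k + 1) := by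
      rw [Finset.mul_sum]
      refine Finset.sum_congr rfl fun k _ => ?_
      rw [pow_succ]
      ring
    rw [h1, pow_zero, one_mul] at hs
    have ha0 := ha 0 (by omega)
    have habs := abs_nonneg (a 0)
    have h2 : a 0 = 0 := by
      refine Int.eq_zero_of_abs_lt_dvd (m := t) ?_ (by omega)
      exact ⟨- ∑ k ∈ range r, t ^ k * a (k + 1), by linarith⟩
    rw [h2, add_zero] at hs
    have ht : t ≠ 0 := by omega
    have h3 := (mul_eq_zero.1 hs).resolve_left ht
    have h4 := ih (fun k => a (k + 1)) (fun k hk => ha (k + 1) (by omega)) h3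
    intro k hk
    rcases k with _ | k
    · exact h2
    · exact h4 k (by omega)

variable {ι : Type}

theorem poly_bound (p : MvPolynomial ι ℤ) : ∃ C D : ℕ, ∀ (A : ℤ) (u : ι → ℤ), 1 ≤ A → (∀ i, |u i| ≤ A) →
    |MvPolynomial.eval u p| ≤ C * A ^ D := by
  induction p using MvPolynomial.induction_on with
  | C a =>
    refine ⟨a.natAbs, 0, fun A u _ _ => ?_⟩
    rw [MvPolynomial.eval_C, pow_zero, mul_one, Int.natCast_natAbs]
  | add p q hp hq =>
    obtain ⟨C, D, h⟩ := hp
    obtain ⟨C', D', h'⟩ := hq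
    refine ⟨C + C', D + D', fun A u hA hu => ?_⟩
    have h1 := h A u hA hu
    have h2 := h' A u hA hu
    rw [map_add]
    have h3 : A ^ D ≤ A ^ (D + D') := pow_le_pow_right₀ hA (Nat.le_add_right _ _)
    have h4 : A ^ D' ≤ A ^ (D + D') := pow_le_pow_right₀ hA (Nat.le_add_left _ _)
    have h5 : (C : ℤ) * A ^ D ≤ C * A ^ (D + D') := mul_le_mul_of_nonneg_left h3 (Int.natCast_nonneg _)
    have h6 : (C' : ℤ) * A ^ D' ≤ C' * A ^ (D + D') := mul_le_mul_of_nonneg_left h4 (Int.natCast_nonneg _)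
    calc _ ≤ |MvPolynomial.eval u p| + |MvPolynomial.eval u q| := abs_add_le _ _
      _ ≤ C * A ^ (D + D') + C' * A ^ (D + D') := by linarith
      _ = ((C + C' : ℕ) : ℤ) * A ^ (D + D') := by push_cast; ring
  | mul_X p i hp =>
    obtain ⟨C, D, h⟩ := hp
    refine ⟨C, D + 1, fun A u hA hu => ?_⟩
    have h1 := h A u hA hu
    rw [map_mul, MvPolynomial.eval_X, abs_mul, pow_succ, ← mul_assoc]
    exact mul_le_mul h1 (hu i) (abs_nonneg _) (by positivity)

theorem poly_bound_fam {κ : Type} [Fintype κ] (p : κ → MvPolynomial ι ℤ) :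
    ∃ C D : ℕ, ∀ (A : ℤ) (u : ι → ℤ), 1 ≤ A → (∀ i, |u i| ≤ A) → ∀ k, |MvPolynomial.eval u (p k)| ≤ C * A ^ D := by
  choose C D h using fun k => poly_bound (p k)
  refine ⟨∑ k, C k, ∑ k, D k, fun A u hA hu k => (h k A u hA hu).trans ?_⟩
  have h1 : C k ≤ ∑ k, C k := Finset.single_le_sum (fun _ _ => Nat.zero_le _) (Finset.mem_univ k)
  have h2 : D k ≤ ∑ k, D k := Finset.single_le_sum (fun _ _ => Nat.zero_le _) (Finset.mem_univ k)
  have h3 : (C k : ℤ) ≤ ((∑ k, C k : ℕ) : ℤ) := by exact_mod_cast h1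
  have h4 : A ^ D k ≤ A ^ (∑ k, D k) := pow_le_pow_right₀ hA h2
  exact mul_le_mul h3 h4 (by positivity) (by positivity)

/-- The auxiliary coordinate grows faster than the others. -/
theorem growth [Fintype ι] (r : ℕ) (p : ℕ → ι → MvPolynomial ι ℤ) (u0 : ι → ℤ) :
    ∃ (E : ℕ) (t0 : ℤ), ∀ (u : ℕ → ι → ℤ) (t : ℕ → ℤ), u 0 = u0 → t 0 = t0 → (∀ n, t (n + 1) = t n ^ E) →
      (∀ n i, u (n + 1) i = ∑ k ∈ range r, t n ^ k * MvPolynomial.eval (u n) (p k i)) →
      ∀ n, ∀ k < r, ∀ i, 2 * |MvPolynomial.eval (u n) (p k i)| < t n := by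
  obtain ⟨C, D, hCD⟩ := poly_bound_fam (fun s : Fin r × ι => p s.1 s.2)
  set A0 : ℤ := 1 + ∑ i, |u0 i| with hA0
  have hA01 : 1 ≤ A0 := by
    have : 0 ≤ ∑ i, |u0 i| := Finset.sum_nonneg fun _ _ => abs_nonneg _
    linarith
  have hu0 : ∀ i, |u0 i| ≤ A0 := fun i => by
    have : |u0 i| ≤ ∑ i, |u0 i| := Finset.single_le_sum (f := fun i => |u0 i|) (fun _ _ => abs_nonneg _) (Finset.mem_univ i)
    linarith
  set t0 : ℤ := 2 * C * (r + 1) ^ D + 2 * C * A0 ^ D + 1 with ht0
  refine ⟨r * D + 1, t0, fun u t hu ht hts hus => ?_⟩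
  have hB : (0 : ℤ) ≤ 2 * C * (r + 1) ^ D := by positivity
  have hB' : (0 : ℤ) ≤ 2 * C * A0 ^ D := by positivity
  have main : ∀ n, t0 ≤ t n ∧ ∃ A : ℤ, 1 ≤ A ∧ (∀ i, |u n i| ≤ A) ∧ 2 * C * A ^ D < t n := by
    intro n
    induction n with
    | zero =>
      refine ⟨ht.ge, A0, hA01, fun i => by rw [hu]; exact hu0 i, ?_⟩
      rw [ht]
      linarith
    | succ n ih =>
      obtain ⟨h1, A, hA, hAu, h2⟩ := ih
      have ht1 : 1 ≤ t n := by linarith
      have hpk : ∀ k < r, ∀ i, |MvPolynomial.eval (u n) (p k i)| ≤ t n := by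
        intro k hk i
        have h3 := hCD A (u n) hA hAu (⟨k, hk⟩, i)
        simp only at h3
        have h4 : 0 ≤ (C : ℤ) * A ^ D := by positivity
        linarith
      refine ⟨?_, (r + 1) * t n ^ r, ?_, fun i => ?_, ?_⟩
      · rw [hts]
        calc t0 ≤ t n := h1
          _ = t n ^ 1 := (pow_one _).symm
          _ ≤ t n ^ (r * D + 1) := pow_le_pow_right₀ ht1 (by omega)
      · have h3 : 1 ≤ t n ^ r := one_le_pow₀ ht1
        have h4 : (1 : ℤ) ≤ r + 1 := by
          have : (0 : ℤ) ≤ r := Int.natCast_nonneg r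
          linarith
        calc (1 : ℤ) = 1 * 1 := by norm_num
          _ ≤ (r + 1) * t n ^ r := mul_le_mul h4 h3 (by norm_num) (by positivity)
      · rw [hus]
        calc |∑ k ∈ range r, t n ^ k * MvPolynomial.eval (u n) (p k i)|
            ≤ ∑ k ∈ range r, |t n ^ k * MvPolynomial.eval (u n) (p k i)| := Finset.abs_sum_le_sum_abs _ _
          _ ≤ ∑ k ∈ range r, t n ^ r := by
              refine Finset.sum_le_sum fun k hk => ?_
              rw [Finset.mem_range] at hk
              rw [abs_mul, abs_of_nonneg (by positivity)]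
              calc t n ^ k * |MvPolynomial.eval (u n) (p k i)| ≤ t n ^ k * t n :=
                    mul_le_mul_of_nonneg_left (hpk k hk i) (by positivity)
                _ = t n ^ (k + 1) := (pow_succ _ _).symm
                _ ≤ t n ^ r := pow_le_pow_right₀ ht1 (by omega)
          _ = r * t n ^ r := by rw [Finset.sum_const, Finset.card_range, nsmul_eq_mul]
          _ ≤ (r + 1) * t n ^ r := by
              have : 0 ≤ t n ^ r := by positivity
              linarith
      · rw [hts]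
        have h3 : 2 * (C : ℤ) * (r + 1) ^ D < t n := by linarith
        calc 2 * (C : ℤ) * ((r + 1) * t n ^ r) ^ D = (2 * C * (r + 1) ^ D) * t n ^ (r * D) := by
              rw [mul_pow, ← pow_mul]
              ring
          _ < t n * t n ^ (r * D) := mul_lt_mul_of_pos_right h3 (by positivity)
          _ = t n ^ (r * D + 1) := by rw [pow_succ]; ring
  intro n k hk i
  obtain ⟨_, A, hA, hAu, h2⟩ := main n
  have h3 := hCD A (u n) hA hAu (⟨k, hk⟩, i)
  simp only at h3
  linarith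

end MP_f4ff90_agQ
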