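import Pool.Agent.Lib.MP_f4ff90_agQ.Idl

/-!
# The Mordell-Lang property implies the question

If a progression of a dense orbit of a dominant rational self-map lay in a proper closed subset, then
one of the classes modulo the difference would be dense by irreducibility, hence all later ones by
dominance.
-/

set_option autoImplicit false

namespace MP_f4ff90_agQ

open MvPolynomial

/-- An infinite eventually periodic set contains an arithmetic progression. -/
theorem EvPer.exists_prog {S : Set ℕ} (h : EvPer S) (hS : S.Infinite) :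
    ∃ s T, 0 < T ∧ ∀ n, s + n * T ∈ S := by
  obtain ⟨T, n₀, hT, h₀⟩ := h
  obtain ⟨s, hsS, hs⟩ := hS.exists_gt n₀
  refine ⟨s, T, hT, fun n => ?_⟩
  induction n with
  | zero => simpa using hsS
  | succ n ih =>
    have h1 := (h₀ (s + n * T) (by omega)).mpr ih
    have h2 : s + (n + 1) * T = s + n * T + T := by ring
    rw [h2]; exact h1

section

variable {K : Type} [Field K] {N : ℕ}

theorem eval_mul_of_hom {k : ℕ} {H : MvPolynomial (Fin (N + 1)) K} (hH : H.IsHomogeneous k)
    (v : Fin (N + 1) → K) (t : K) : eval (fun i => v i * t) H = eval v H * t ^ k := by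
  have h := aeval_mul_of_hom hH v t
  rw [← aeval_eq_eval, ← aeval_eq_eval]
  exact h

/-- Another representation of the same map also maps the variety into itself. -/
theorem bind_rep_mem {P : Ideal (MvPolynomial (Fin (N + 1)) K)} (hP : P.IsPrime)
    {F G : Fin (N + 1) → MvPolynomial (Fin (N + 1)) K} (hFP : ∃ i, F i ∉ P)
    (hFG : ∀ i j, F i * G j - F j * G i ∈ P) {k : ℕ} {p : MvPolynomial (Fin (N + 1)) K}
    (hp : p.IsHomogeneous k) (hFp : bind₁ F p ∈ P) : bind₁ G p ∈ P := by
  have := hP
  obtain ⟨l, hl⟩ := hFP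
  have e : ∀ E : Fin (N + 1) → MvPolynomial (Fin (N + 1)) K,
      aeval (fun i => Ideal.Quotient.mk P (E i)) p = Ideal.Quotient.mk P (bind₁ E p) := by
    intro E
    have h1 : (aeval (fun i => Ideal.Quotient.mk P (E i)) :
        MvPolynomial (Fin (N + 1)) K →ₐ[K] (MvPolynomial (Fin (N + 1)) K ⧸ P)).toRingHom =
        (Ideal.Quotient.mk P).comp (bind₁ E).toRingHom := by
      apply ringHom_ext
      · intro r
        simp
        rfl
      · intro i
        simp
    exact congrArg (fun φ => φ p) h1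
  have h1 := aeval_mul_of_hom hp (fun i => Ideal.Quotient.mk P (G i)) (Ideal.Quotient.mk P (F l))
  have h2 := aeval_mul_of_hom hp (fun i => Ideal.Quotient.mk P (F i)) (Ideal.Quotient.mk P (G l))
  have h3 : (fun i => Ideal.Quotient.mk P (G i) * Ideal.Quotient.mk P (F l)) =
      fun i => Ideal.Quotient.mk P (F i) * Ideal.Quotient.mk P (G l) := by
    funext i
    rw [← map_mul, ← map_mul]
    rw [Ideal.Quotient.eq]
    have h4 := hFG l i
    have h5 : G i * F l - F i * G l = F l * G i - F i * G l := by ring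
    rw [h5]
    exact h4
  rw [h3, h2, e, e, Ideal.Quotient.eq_zero_iff_mem.mpr hFp, zero_mul] at h1
  have h6 : Ideal.Quotient.mk P (F l) ^ k ≠ 0 :=
    pow_ne_zero _ (fun h => hl (Ideal.Quotient.eq_zero_iff_mem.mp h))
  have h7 := (mul_eq_zero.mp h1.symm).resolve_right h6
  exact Ideal.Quotient.eq_zero_iff_mem.mp h7

/-- All points of an orbit lie on the variety. -/
theorem orbit_mem {P : Ideal (MvPolynomial (Fin (N + 1)) K)} (hP : P.IsPrime)
    (hhom : ∀ p ∈ P, ∀ k : ℕ, homogeneousComponent k p ∈ P)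
    {F : Fin (N + 1) → MvPolynomial (Fin (N + 1)) K} (hFP : ∃ i, F i ∉ P)
    (hinv : ∀ p ∈ P, bind₁ F p ∈ P) {y : ℕ → Fin (N + 1) → K}
    (hyP : ∀ p ∈ P, eval (y 0) p = 0)
    (hstep : ∀ n : ℕ, ∃ (e : ℕ) (G : Fin (N + 1) → MvPolynomial (Fin (N + 1)) K),
      (∀ i, (G i).IsHomogeneous e) ∧ (∃ i, G i ∉ P) ∧ (∀ i j, F i * G j - F j * G i ∈ P) ∧
      (∃ i, eval (y n) (G i) ≠ 0) ∧
      ∃ c : K, c ≠ 0 ∧ y (n + 1) = c • (fun i => eval (y n) (G i))) :
    ∀ n, ∀ p ∈ P, eval (y n) p = 0 := by
  intro n
  induction n with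
  | zero => exact hyP
  | succ n ih =>
    intro p hp
    obtain ⟨e, G, _, _, hFG, _, c, _, hy⟩ := hstep n
    rw [← sum_homogeneousComponent p, map_sum]
    refine Finset.sum_eq_zero fun k _ => ?_
    have h1 := bind_rep_mem hP hFP hFG (homogeneousComponent_isHomogeneous k p)
      (hinv _ (hhom p hp k))
    have h2 := ih _ h1
    have h3 : y (n + 1) = fun i => eval (y n) (G i) * c := by
      rw [hy]
      funext i
      rw [Pi.smul_apply, smul_eq_mul, mul_comm]
    rw [h3, eval_mul_of_hom (homogeneousComponent_isHomogeneous k p), ← eval_bind, h2, zero_mul]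

/-- A homogeneous polynomial which vanishes at the next point of the orbit. -/
theorem eval_bind_of_next {P : Ideal (MvPolynomial (Fin (N + 1)) K)}
    {F : Fin (N + 1) → MvPolynomial (Fin (N + 1)) K} {v w : Fin (N + 1) → K}
    (hv : ∀ p ∈ P, eval v p = 0) {G : Fin (N + 1) → MvPolynomial (Fin (N + 1)) K}
    (hFG : ∀ i j, F i * G j - F j * G i ∈ P) (hG : ∃ i, eval v (G i) ≠ 0) {c : K} (hc : c ≠ 0)
    (hw : w = c • (fun i => eval v (G i))) {k : ℕ} {p : MvPolynomial (Fin (N + 1)) K}
    (hp : p.IsHomogeneous k) (h : eval w p = 0) : eval v (bind₁ F p) = 0 := by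
  obtain ⟨l, hl⟩ := hG
  have h1 : (fun i => eval v (F i)) = fun i => w i * (eval v (F l) / (eval v (G l) * c)) := by
    funext i
    have h2 := hv _ (hFG i l)
    rw [map_sub, map_mul, map_mul] at h2
    have h3 : eval v (F i) * eval v (G l) = eval v (F l) * eval v (G i) := sub_eq_zero.mp h2
    rw [hw, Pi.smul_apply, smul_eq_mul]
    field_simp
    linear_combination h3
  rw [eval_bind, h1, eval_mul_of_hom hp, h, zero_mul]

end

theorem question_of_mordellLang (h : MordellLang) : Question := by
  intro N P hP hhom hX d F hF hFP hinv hdom y hy0 hyP hstep hdense k H hH hHP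
  by_contra hinf
  have hEv := h N P hP hhom d F hF hFP hinv y ⟨hy0, hyP, hstep⟩ {H}
    (by intro H' hH'; rw [Set.mem_singleton_iff.mp hH']; exact ⟨k, hH⟩)
  have hset : {n : ℕ | ∀ H' ∈ ({H} : Set (MvPolynomial (Fin (N + 1)) (AlgebraicClosure ℚ))),
      eval (y n) H' = 0} = {n : ℕ | eval (y n) H = 0} := by
    ext n
    constructor
    · intro h1; exact h1 H rfl
    · intro h1 H' hH'; rw [Set.mem_singleton_iff.mp hH']; exact h1
  rw [hset] at hEv
  obtain ⟨s, T, hT, hprog⟩ := hEv.exists_prog hinf
  have hmem := orbit_mem hP hhom hFP hinv hyP hstep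
  -- some class is dense
  have hcls : ∃ j, ∀ (k : ℕ) (H : MvPolynomial (Fin (N + 1)) (AlgebraicClosure ℚ)),
      H.IsHomogeneous k → (∀ n, eval (y (j + n * T)) H = 0) → H ∈ P := by
    by_contra hcon
    push Not at hcon
    choose e E hE hEv0 hEP using hcon
    have h1 : (∏ j ∈ Finset.range T, E j) ∈ P := by
      refine hdense (∑ j ∈ Finset.range T, e j) _ (IsHomogeneous.prod _ _ _ fun j _ => hE j)
        fun n => ?_
      rw [map_prod]
      refine Finset.prod_eq_zero (Finset.mem_range.mpr (Nat.mod_lt n hT)) ?_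
      have h2 := hEv0 (n % T) (n / T)
      have h3 : n % T + n / T * T = n := by rw [mul_comm]; exact Nat.mod_add_div n T
      rw [h3] at h2
      exact h2
    obtain ⟨j, _, hj⟩ := (hP.prod_mem_iff).mp h1
    exact hEP j hj
  obtain ⟨j, hj⟩ := hcls
  -- all later classes are dense
  have hlater : ∀ i, ∀ (k : ℕ) (H : MvPolynomial (Fin (N + 1)) (AlgebraicClosure ℚ)),
      H.IsHomogeneous k → (∀ n, eval (y (j + i + n * T)) H = 0) → H ∈ P := by
    intro i
    induction i with
    | zero => exact hj
    | succ i ih =>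
      intro k' H' hH' hz
      refine hdom H' (ih (d * k') (bind₁ F H') ?_ fun n => ?_)
      · exact IsHomogeneous.aeval hH' F hF
      · obtain ⟨e, G, _, _, hFG, hG, c, hc, hy⟩ := hstep (j + i + n * T)
        refine eval_bind_of_next (hmem _) hFG hG hc hy hH' ?_
        have h2 := hz n
        rw [show j + (i + 1) + n * T = j + i + n * T + 1 by ring] at h2
        exact h2
  refine hHP (hlater (s + j * T - j) k H hH fun n => ?_)
  have h1 : j ≤ j * T := Nat.le_mul_of_pos_right j hT
  have h2 : j + (s + j * T - j) + n * T = s + (j + n) * T := by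
    have : j + (s + j * T - j) = s + j * T := by omega
    rw [this]; ring
  rw [h2]
  exact hprog (j + n)

end MP_f4ff90_agQ
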