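import Pool.Agent.Lib.MP_f4ff90_agQ.Per

/-!
# The question implies the statement about quadratic recurrences

A maximal vanishing ideal of a progression of the orbit is prime (the minimal primes over it are
permuted, and the one through the starting point contains the ideal of a thinner progression); the
question applied to the projective closure of its variety makes the zero set of every polynomial
eventually constant along each progression of that difference.
-/

set_option autoImplicit false

namespace MP_f4ff90_agQ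

open MvPolynomial

/-- The words of the frozen statement, over an arbitrary field. -/
def Q1 (K : Type) [Field K] : Prop :=
    ∀ (N : ℕ) (P : Ideal (MvPolynomial (Fin (N+1)) K)),
      P.IsPrime →
      (∀ p ∈ P, ∀ k : ℕ, MvPolynomial.homogeneousComponent k p ∈ P) →
      (∃ i, (MvPolynomial.X i : MvPolynomial (Fin (N+1)) K) ∉ P) →
      ∀ (d : ℕ) (F : Fin (N+1) → MvPolynomial (Fin (N+1)) K),
        (∀ i, (F i).IsHomogeneous d) →
        (∃ i, F i ∉ P) →
        (∀ p ∈ P, MvPolynomial.bind₁ F p ∈ P) →
        (∀ p, MvPolynomial.bind₁ F p ∈ P → p ∈ P) →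
        ∀ y : ℕ → Fin (N+1) → K,
          y 0 ≠ 0 →
          (∀ p ∈ P, MvPolynomial.eval (y 0) p = 0) →
          (∀ n : ℕ, ∃ (e : ℕ) (G : Fin (N+1) → MvPolynomial (Fin (N+1)) K),
              (∀ i, (G i).IsHomogeneous e) ∧
              (∃ i, G i ∉ P) ∧
              (∀ i j, F i * G j - F j * G i ∈ P) ∧
              (∃ i, MvPolynomial.eval (y n) (G i) ≠ 0) ∧
              ∃ c : K, c ≠ 0 ∧
                y (n+1) = c • (fun i => MvPolynomial.eval (y n) (G i))) →
          (∀ (k : ℕ) (H : MvPolynomial (Fin (N+1)) K),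
              H.IsHomogeneous k → (∀ n, MvPolynomial.eval (y n) H = 0) → H ∈ P) →
          ∀ (k : ℕ) (H : MvPolynomial (Fin (N+1)) K),
            H.IsHomogeneous k → H ∉ P →
            {n : ℕ | MvPolynomial.eval (y n) H = 0}.Finite

/-- A set which is eventually constant on each class of some modulus is eventually periodic. -/
theorem evPer_of_consts {S : Set ℕ} {s T : ℕ} (hT : 0 < T)
    (h : ∀ j : ℕ, ∃ B, (∀ n, B ≤ n → s + j + n * T ∈ S) ∨ (∀ n, B ≤ n → s + j + n * T ∉ S)) :
    EvPer S := by
  choose B hB using h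
  refine ⟨T, s + (∑ j ∈ Finset.range T, B j) * T, hT, fun n hn => Iff.symm ?_⟩
  set j := (n - s) % T with hj
  set q := (n - s) / T with hq
  have hjT : j < T := Nat.mod_lt _ hT
  have hns : s ≤ n := le_trans (Nat.le_add_right _ _) hn
  have hn1 : n = s + j + q * T := by
    have h1 := Nat.mod_add_div (n - s) T
    rw [← hj, ← hq, mul_comm] at h1
    omega
  have hBq : B j ≤ q := by
    have h1 : B j ≤ ∑ j ∈ Finset.range T, B j :=
      Finset.single_le_sum (f := fun j => B j) (fun _ _ => Nat.zero_le _) (Finset.mem_range.mpr hjT)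
    have h2 : (∑ j ∈ Finset.range T, B j) * T ≤ n - s := by omega
    exact le_trans h1 ((Nat.le_div_iff_mul_le hT).mpr h2)
  have hn2 : n + T = s + j + (q + 1) * T := by
    rw [add_mul, one_mul, ← add_assoc, ← hn1]
  rcases hB j with h1 | h1
  · constructor
    · intro _; rw [hn2]; exact h1 _ (by omega)
    · intro _; rw [hn1]; exact h1 _ hBq
  · constructor
    · intro h2; rw [hn1] at h2; exact absurd h2 (h1 _ hBq)
    · intro h2; rw [hn2] at h2; exact absurd h2 (h1 _ (by omega))

/-- The minimal primes over an invariant ideal are periodic. -/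
theorem exists_periodic {R : Type*} [CommRing R] [IsNoetherianRing R] (φ : R →+* R)
    (I : Ideal R) (hI : I.comap φ = I) (J : Ideal R) (hJp : J.IsPrime) (hJ : I ≤ J) :
    ∃ Q ∈ I.minimalPrimes, Q ≤ J ∧ ∃ N : ℕ, 0 < N ∧ ∀ p, (φ^[N] p ∈ Q ↔ p ∈ Q) := by
  have := hJp
  obtain ⟨Q, hQ, hQJ⟩ := Ideal.exists_minimalPrimes_le hJ
  refine ⟨Q, hQ, hQJ, ?_⟩
  have hfin : Finite I.minimalPrimes :=
    (Ideal.finite_minimalPrimes_of_isNoetherianRing R I).to_subtype
  have hex : ∀ p : I.minimalPrimes, ∃ p' : I.minimalPrimes, Ideal.comap φ p'.1 = p.1 := by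
    intro p
    have hp : p.1 ∈ (I.comap φ).minimalPrimes := by rw [hI]; exact p.2
    obtain ⟨p', hp', h⟩ := Ideal.exists_minimalPrimes_comap_eq φ p.1 hp
    exact ⟨⟨p', hp'⟩, h⟩
  choose σ hσ using hex
  have hinj : Function.Injective σ := by
    intro p q h
    apply Subtype.ext
    rw [← hσ p, ← hσ q, h]
  obtain ⟨N, hN, hper⟩ := hinj.mem_periodicPts (⟨Q, hQ⟩ : I.minimalPrimes)
  refine ⟨N, hN, fun p => ?_⟩
  have key : ∀ (n : ℕ) (q : I.minimalPrimes) (r : R), φ^[n] r ∈ (σ^[n] q).1 ↔ r ∈ q.1 := by
    intro n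
    induction n with
    | zero => intro q r; rfl
    | succ n ih =>
      intro q r
      rw [Function.iterate_succ_apply', Function.iterate_succ_apply']
      have h1 : φ (φ^[n] r) ∈ (σ (σ^[n] q)).1 ↔ φ^[n] r ∈ Ideal.comap φ (σ (σ^[n] q)).1 := Iff.rfl
      rw [h1, hσ]
      exact ih q r
  have h2 := key N ⟨Q, hQ⟩ p
  have h3 : σ^[N] (⟨Q, hQ⟩ : I.minimalPrimes) = ⟨Q, hQ⟩ := hper
  rw [h3] at h2
  exact h2

section Affine

variable {K : Type} [Field K] {m : ℕ}

/-- The ideal of the polynomials vanishing on a progression of the sequence. -/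
def prog (x : ℕ → Fin m → K) (s T : ℕ) : Ideal (MvPolynomial (Fin m) K) where
  carrier := {p | ∀ n : ℕ, eval (x (s + n * T)) p = 0}
  add_mem' := by
    intro a b ha hb n
    rw [map_add, ha n, hb n, add_zero]
  zero_mem' := fun n => map_zero _
  smul_mem' := by
    intro c a ha n
    rw [smul_eq_mul, map_mul, ha n, mul_zero]

theorem mem_prog {x : ℕ → Fin m → K} {s T : ℕ} {p : MvPolynomial (Fin m) K} :
    p ∈ prog x s T ↔ ∀ n : ℕ, eval (x (s + n * T)) p = 0 := Iff.rfl

/-- iterates of a polynomial map -/
noncomputable def itp (f : Fin m → MvPolynomial (Fin m) K) : ℕ → Fin m → MvPolynomial (Fin m) K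
  | 0 => X
  | n + 1 => fun i => bind₁ (itp f n) (f i)

theorem eval_bind {σ τ : Type*} (v : τ → K) (g : σ → MvPolynomial τ K)
    (p : MvPolynomial σ K) :
    eval v (bind₁ g p) = eval (fun i => eval v (g i)) p :=
  eval₂Hom_bind₁ (RingHom.id K) v g p

theorem eval_itp {f : Fin m → MvPolynomial (Fin m) K} {x : ℕ → Fin m → K}
    (hx : ∀ n, x (n + 1) = fun i => eval (x n) (f i)) (k n : ℕ) (i : Fin m) :
    eval (x n) (itp f k i) = x (n + k) i := by
  induction k generalizing i with
  | zero => simp [itp]
  | succ k ih =>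
    have h1 : (fun j => eval (x n) (itp f k j)) = x (n + k) := funext fun j => ih j
    rw [itp, eval_bind, h1, ← add_assoc, hx]

theorem eval_bind_itp {f : Fin m → MvPolynomial (Fin m) K} {x : ℕ → Fin m → K}
    (hx : ∀ n, x (n + 1) = fun i => eval (x n) (f i)) (k n : ℕ) (p : MvPolynomial (Fin m) K) :
    eval (x n) (bind₁ (itp f k) p) = eval (x (n + k)) p := by
  rw [eval_bind]
  have h1 : (fun j => eval (x n) (itp f k j)) = x (n + k) := funext fun j => eval_itp hx k n j
  rw [h1]

theorem comap_prog {f : Fin m → MvPolynomial (Fin m) K} {x : ℕ → Fin m → K}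
    (hx : ∀ n, x (n + 1) = fun i => eval (x n) (f i)) (k s T : ℕ)
    (p : MvPolynomial (Fin m) K) :
    bind₁ (itp f k) p ∈ prog x s T ↔ p ∈ prog x (s + k) T := by
  rw [mem_prog, mem_prog]
  refine forall_congr' fun n => ?_
  rw [eval_bind_itp hx, show s + n * T + k = s + k + n * T by ring]

theorem prog_mono {x : ℕ → Fin m → K} (s T a b : ℕ) :
    prog x s T ≤ prog x (s + a * T) (b * T) := by
  intro p hp n
  have h := hp (a + n * b)
  have h2 : s + (a + n * b) * T = s + a * T + n * (b * T) := by ring
  rw [h2] at h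
  exact h

/-- There is a progression whose vanishing ideal is maximal. -/
theorem exists_max (x : ℕ → Fin m → K) :
    ∃ s T : ℕ, 0 < T ∧ ∀ a b : ℕ, 0 < b → prog x (s + a * T) (b * T) = prog x s T := by
  obtain ⟨I, ⟨s, T, hT, rfl⟩, hmax⟩ := set_has_maximal_iff_noetherian.mpr
    (inferInstance : IsNoetherian (MvPolynomial (Fin m) K) (MvPolynomial (Fin m) K))
    {I | ∃ s T : ℕ, 0 < T ∧ I = prog x s T} ⟨prog x 0 1, 0, 1, one_pos, rfl⟩
  refine ⟨s, T, hT, fun a b hb => ?_⟩
  by_contra hne
  exact hmax _ ⟨_, _, Nat.mul_pos hb hT, rfl⟩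
    (lt_of_le_of_ne (prog_mono s T a b) (fun h => hne h.symm))

/-- Such an ideal is prime. -/
theorem prime_of_max {f : Fin m → MvPolynomial (Fin m) K} {x : ℕ → Fin m → K}
    (hx : ∀ n, x (n + 1) = fun i => eval (x n) (f i)) {s T : ℕ}
    (hmax : ∀ a b : ℕ, 0 < b → prog x (s + a * T) (b * T) = prog x s T) :
    (prog x s T).IsPrime := by
  have hI : (prog x s T).comap (bind₁ (itp f T)).toRingHom = prog x s T := by
    ext p
    rw [Ideal.mem_comap]
    have h1 : (bind₁ (itp f T)).toRingHom p = bind₁ (itp f T) p := rfl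
    rw [h1, comap_prog hx]
    have h2 := hmax 1 1 one_pos
    rw [one_mul] at h2
    rw [h2]
  have hJ : prog x s T ≤ RingHom.ker (eval (x s)) := by
    intro p hp
    have h := hp 0
    rw [zero_mul, add_zero] at h
    exact h
  obtain ⟨Q, hQ, hQJ, N, hN, hper⟩ := exists_periodic (bind₁ (itp f T)).toRingHom
    (prog x s T) hI (RingHom.ker (eval (x s))) (RingHom.ker_isPrime _) hJ
  have hit : ∀ (n k : ℕ) (p : MvPolynomial (Fin m) K),
      eval (x k) ((bind₁ (itp f T)).toRingHom^[n] p) = eval (x (k + n * T)) p := by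
    intro n
    induction n with
    | zero => intro k p; simp
    | succ n ih =>
      intro k p
      rw [Function.iterate_succ_apply']
      have h1 : ∀ q, (bind₁ (itp f T)).toRingHom q = bind₁ (itp f T) q := fun _ => rfl
      rw [h1, eval_bind_itp hx, ih, show k + T + n * T = k + (n + 1) * T by ring]
  have hper2 : ∀ (n : ℕ) (p : MvPolynomial (Fin m) K), p ∈ Q →
      (bind₁ (itp f T)).toRingHom^[n * N] p ∈ Q := by
    intro n
    induction n with
    | zero => intro p hp; simpa using hp
    | succ n ih =>
      intro p hp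
      rw [show (n + 1) * N = N + n * N by ring, Function.iterate_add_apply]
      exact (hper _).mpr (ih p hp)
  have h1 : Q ≤ prog x s (N * T) := by
    intro p hp n
    have h2 := hQJ (hper2 n p hp)
    rw [RingHom.mem_ker, hit] at h2
    rw [show n * (N * T) = n * N * T by ring]
    exact h2
  have h2 := hmax 0 N hN
  rw [zero_mul, add_zero] at h2
  rw [h2] at h1
  have h3 : Q = prog x s T := le_antisymm h1 hQ.1.2
  rw [← h3]
  exact hQ.1.1

end Affine

/-- A homogeneous polynomial of degree `k` at `g * t`. -/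
theorem aeval_mul_of_hom {R S σ : Type*} [CommRing R] [CommRing S] [Algebra R S] {k : ℕ}
    {H : MvPolynomial σ R} (hH : H.IsHomogeneous k) (g : σ → S) (t : S) :
    aeval (fun i => g i * t) H = aeval g H * t ^ k := by
  rw [aeval_def, aeval_def, eval₂_eq, eval₂_eq, Finset.sum_mul]
  refine Finset.sum_congr rfl fun d hd => ?_
  have h1 := hH (mem_support_iff.mp hd)
  have h2 : ∑ i ∈ d.support, d i = k := by
    rw [← h1, Finsupp.weight_apply, Finsupp.sum]
    refine Finset.sum_congr rfl fun i _ => ?_
    simp
  rw [mul_assoc]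
  congr 1
  rw [← h2, ← Finset.prod_pow_eq_pow_sum, ← Finset.prod_mul_distrib]
  refine Finset.prod_congr rfl fun i _ => ?_
  rw [mul_pow]

section

variable {K : Type} [Field K] {m : ℕ}

/-- dehomogenisation -/
noncomputable def deh : MvPolynomial (Fin (m + 1)) K →ₐ[K] MvPolynomial (Fin m) K :=
  aeval (Fin.cons 1 X)

/-- homogenisation -/
noncomputable def hmg (d : ℕ) (p : MvPolynomial (Fin m) K) : MvPolynomial (Fin (m + 1)) K :=
  ∑ k ∈ Finset.range (d + 1), X 0 ^ (d - k) * rename Fin.succ (homogeneousComponent k p)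

theorem hmg_hom (d : ℕ) (p : MvPolynomial (Fin m) K) : (hmg d p).IsHomogeneous d := by
  unfold hmg
  refine IsHomogeneous.sum _ _ _ fun k hk => ?_
  have hk' : k ≤ d := by
    have := Finset.mem_range.mp hk
    omega
  have h1 : (X 0 ^ (d - k) : MvPolynomial (Fin (m + 1)) K).IsHomogeneous (d - k) := by
    have := (isHomogeneous_X K (0 : Fin (m + 1))).pow (d - k)
    rwa [one_mul] at this
  have h2 : (rename Fin.succ (homogeneousComponent k p) :
      MvPolynomial (Fin (m + 1)) K).IsHomogeneous k :=
    (homogeneousComponent_isHomogeneous k p).rename_isHomogeneous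
  have h3 := h1.mul h2
  rwa [Nat.sub_add_cancel hk'] at h3

theorem deh_rename (p : MvPolynomial (Fin m) K) : deh (rename Fin.succ p) = p := by
  unfold deh
  rw [aeval_rename]
  have h : (Fin.cons 1 X : Fin (m + 1) → MvPolynomial (Fin m) K) ∘ Fin.succ = X := by
    funext i
    simp
  rw [h, aeval_X_left_apply]

theorem deh_hmg {d : ℕ} {p : MvPolynomial (Fin m) K} (hd : p.totalDegree ≤ d) :
    deh (hmg d p) = p := by
  unfold hmg
  rw [map_sum]
  have h1 : ∀ k ∈ Finset.range (d + 1),
      deh (X 0 ^ (d - k) * rename Fin.succ (homogeneousComponent k p)) =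
        homogeneousComponent k p := by
    intro k _
    rw [map_mul, map_pow, deh_rename]
    have h0 : deh (X 0 : MvPolynomial (Fin (m + 1)) K) = 1 := by
      unfold deh
      rw [aeval_X, Fin.cons_zero]
    rw [h0, one_pow, one_mul]
  rw [Finset.sum_congr rfl h1]
  have h2 : Finset.range (p.totalDegree + 1) ⊆ Finset.range (d + 1) := by
    intro k hk
    rw [Finset.mem_range] at hk ⊢
    omega
  rw [← Finset.sum_subset h2]
  · exact sum_homogeneousComponent p
  · intro k _ hk
    rw [Finset.mem_range] at hk
    exact homogeneousComponent_eq_zero _ _ (by omega)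

theorem eval_cons_one (v : Fin m → K) (H : MvPolynomial (Fin (m + 1)) K) :
    eval (Fin.cons 1 v : Fin (m + 1) → K) H = eval v (deh H) := by
  have h : (eval (Fin.cons 1 v : Fin (m + 1) → K)) = (eval v).comp (deh (m := m) (K := K)).toRingHom := by
    apply ringHom_ext
    · intro r
      simp [deh]
    · intro i
      refine Fin.cases ?_ (fun j => ?_) i
      · simp [deh]
      · simp [deh]
  rw [h]
  rfl

/-- The cone map: `X_0 ↦ t`, `X_i ↦ x_i t`. -/
noncomputable def psi (I : Ideal (MvPolynomial (Fin m) K)) :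
    MvPolynomial (Fin (m + 1)) K →ₐ[K] Polynomial (MvPolynomial (Fin m) K ⧸ I) :=
  aeval (fun i => Polynomial.C (Ideal.Quotient.mk I ((Fin.cons 1 X : Fin (m + 1) → MvPolynomial (Fin m) K) i))
    * Polynomial.X)

theorem psi_hom (I : Ideal (MvPolynomial (Fin m) K)) {k : ℕ} {H : MvPolynomial (Fin (m + 1)) K}
    (hH : H.IsHomogeneous k) :
    psi I H = Polynomial.C (Ideal.Quotient.mk I (deh H)) * Polynomial.X ^ k := by
  unfold psi
  refine (aeval_mul_of_hom hH (fun i => (Polynomial.C (Ideal.Quotient.mk I
    ((Fin.cons 1 X : Fin (m + 1) → MvPolynomial (Fin m) K) i)) :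
      Polynomial (MvPolynomial (Fin m) K ⧸ I))) Polynomial.X).trans ?_
  congr 1
  have h : (aeval (fun i => Polynomial.C (Ideal.Quotient.mk I
      ((Fin.cons 1 X : Fin (m + 1) → MvPolynomial (Fin m) K) i))) :
      MvPolynomial (Fin (m + 1)) K →ₐ[K] Polynomial (MvPolynomial (Fin m) K ⧸ I)).toRingHom =
      ((Polynomial.C : _ →+* Polynomial (MvPolynomial (Fin m) K ⧸ I)).comp (Ideal.Quotient.mk I)).comp
        (deh (m := m) (K := K)).toRingHom := by
    apply ringHom_ext
    · intro r
      simp [deh]
      rfl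
    · intro i
      simp [deh]
  exact congrArg (fun φ => φ H) h

theorem mem_ker_psi (I : Ideal (MvPolynomial (Fin m) K)) (p : MvPolynomial (Fin (m + 1)) K) :
    p ∈ RingHom.ker (psi I) ↔ ∀ k : ℕ, deh (homogeneousComponent k p) ∈ I := by
  have h1 : psi I p = ∑ k ∈ Finset.range (p.totalDegree + 1),
      Polynomial.C (Ideal.Quotient.mk I (deh (homogeneousComponent k p))) * Polynomial.X ^ k := by
    conv_lhs => rw [← sum_homogeneousComponent p]
    rw [map_sum]
    exact Finset.sum_congr rfl fun k _ => psi_hom I (homogeneousComponent_isHomogeneous k p)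
  rw [RingHom.mem_ker]
  constructor
  · intro h k
    have h0 : (psi I p) = 0 := h
    by_cases hk : k < p.totalDegree + 1
    · have h2 := congrArg (fun q => Polynomial.coeff q k) (h1.symm.trans h0)
      simp only [Polynomial.finsetSum_coeff, Polynomial.coeff_C_mul_X_pow, Polynomial.coeff_zero] at h2
      rw [Finset.sum_ite_eq (Finset.range (p.totalDegree + 1)) k] at h2
      rw [if_pos (Finset.mem_range.mpr hk)] at h2
      exact Ideal.Quotient.eq_zero_iff_mem.mp h2
    · rw [homogeneousComponent_eq_zero _ _ (by omega), map_zero]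
      exact I.zero_mem
  · intro h
    show psi I p = 0
    rw [h1]
    refine Finset.sum_eq_zero fun k _ => ?_
    rw [Ideal.Quotient.eq_zero_iff_mem.mpr (h k), Polynomial.C_0, zero_mul]

/-- **Q1 gives eventually periodic zero sets for the polynomial maps of the affine spaces.** -/
theorem evPer_of_Q1 (hQ : Q1 K) (f : Fin m → MvPolynomial (Fin m) K) (x : ℕ → Fin m → K)
    (hx : ∀ n, x (n + 1) = fun i => eval (x n) (f i)) (h : MvPolynomial (Fin m) K) :
    EvPer {n | eval (x n) h = 0} := by
  obtain ⟨s, T, hT, hmax⟩ := exists_max x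
  have hprime := prime_of_max hx hmax
  set I := prog x s T with hI
  set g := itp f T with hg
  -- every polynomial not in `I` has finitely many zeros on the progression
  have key : ∀ q : MvPolynomial (Fin m) K, q ∉ I → {n : ℕ | eval (x (s + n * T)) q = 0}.Finite := by
    intro q hq
    have hIg : ∀ p, bind₁ g p ∈ I ↔ p ∈ I := by
      intro p
      rw [hI, hg, comap_prog hx]
      have h2 := hmax 1 1 one_pos
      rw [one_mul] at h2
      rw [h2]
    set d : ℕ := 1 + ∑ i, (g i).totalDegree with hd
    have hdi : ∀ i, (g i).totalDegree ≤ d := by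
      intro i
      have := Finset.single_le_sum (f := fun i => (g i).totalDegree) (fun _ _ => Nat.zero_le _)
        (Finset.mem_univ i)
      have h2 : (g i).totalDegree ≤ ∑ i, (g i).totalDegree := this
      omega
    have hd0 : 0 < d := by omega
    let F : Fin (m + 1) → MvPolynomial (Fin (m + 1)) K := Fin.cons (X 0 ^ d) (fun i => hmg d (g i))
    have hF : ∀ i, (F i).IsHomogeneous d := by
      intro i
      refine Fin.cases ?_ (fun j => ?_) i
      · have := (isHomogeneous_X K (0 : Fin (m + 1))).pow d
        rw [one_mul] at this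
        exact this
      · exact hmg_hom d (g j)
    have hFdeh : ∀ i, deh (F i) = (Fin.cons 1 g : Fin (m + 1) → MvPolynomial (Fin m) K) i := by
      intro i
      refine Fin.cases ?_ (fun j => ?_) i
      · simp [F, deh]
      · exact deh_hmg (hdi j)
    have hIne : I ≠ ⊤ := hprime.ne_top
    have := hprime
    -- the induced endomorphism
    let φ : (MvPolynomial (Fin m) K ⧸ I) →+* (MvPolynomial (Fin m) K ⧸ I) :=
      Ideal.quotientMap I (bind₁ g).toRingHom (fun p hp => (hIg p).mpr hp)
    have hφ : Function.Injective φ := by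
      rw [injective_iff_map_eq_zero]
      intro a ha
      obtain ⟨p, rfl⟩ := Ideal.Quotient.mk_surjective a
      have h1 : φ (Ideal.Quotient.mk I p) = Ideal.Quotient.mk I (bind₁ g p) := rfl
      rw [h1, Ideal.Quotient.eq_zero_iff_mem] at ha
      exact Ideal.Quotient.eq_zero_iff_mem.mpr ((hIg p).mp ha)
    let Θ : Polynomial (MvPolynomial (Fin m) K ⧸ I) →+* Polynomial (MvPolynomial (Fin m) K ⧸ I) :=
      (Polynomial.expand (MvPolynomial (Fin m) K ⧸ I) d).toRingHom.comp (Polynomial.mapRingHom φ)
    have hΘ : Function.Injective Θ := by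
      intro a b hab
      have h1 : Polynomial.expand (MvPolynomial (Fin m) K ⧸ I) d (Polynomial.map φ a) =
        Polynomial.expand (MvPolynomial (Fin m) K ⧸ I) d (Polynomial.map φ b) := hab
      exact Polynomial.map_injective φ hφ (Polynomial.expand_injective hd0 h1)
    have hψX : ∀ i, psi I (X i) = Polynomial.C (Ideal.Quotient.mk I
        ((Fin.cons 1 X : Fin (m + 1) → MvPolynomial (Fin m) K) i)) * Polynomial.X := by
      intro i
      rw [psi, aeval_X]
    have hcomm : ∀ p, psi I (bind₁ F p) = Θ (psi I p) := by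
      intro p
      have h1 : (psi I).toRingHom.comp (bind₁ F).toRingHom = Θ.comp (psi I).toRingHom := by
        apply ringHom_ext
        · intro r
          have e1 : ((psi I).toRingHom.comp (bind₁ F).toRingHom) (C r) = psi I (bind₁ F (C r)) := rfl
          have e2 : (Θ.comp (psi I).toRingHom) (C r) = Θ (psi I (C r)) := rfl
          rw [e1, e2, bind₁_C_right]
          have e3 : psi I (C r) = Polynomial.C (Ideal.Quotient.mk I (C r)) := by
            have := psi_hom I (isHomogeneous_C (Fin (m + 1)) r)
            rw [pow_zero, mul_one] at this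
            rw [this]
            have e4 : deh (C r : MvPolynomial (Fin (m + 1)) K) = C r := by
              unfold deh
              rw [aeval_C]
              rfl
            rw [e4]
          rw [e3]
          show _ = Polynomial.expand _ d (Polynomial.map φ (Polynomial.C (Ideal.Quotient.mk I (C r))))
          rw [Polynomial.map_C, Polynomial.expand_C]
          have e5 : φ (Ideal.Quotient.mk I (C r)) = Ideal.Quotient.mk I (bind₁ g (C r)) := rfl
          rw [e5, bind₁_C_right]
        · intro i
          have e1 : ((psi I).toRingHom.comp (bind₁ F).toRingHom) (X i) = psi I (bind₁ F (X i)) := rfl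
          have e2 : (Θ.comp (psi I).toRingHom) (X i) = Θ (psi I (X i)) := rfl
          rw [e1, e2, bind₁_X_right, psi_hom I (hF i), hFdeh, hψX]
          show _ = Polynomial.expand _ d (Polynomial.map φ _)
          rw [Polynomial.map_mul, Polynomial.map_C, Polynomial.map_X, map_mul, Polynomial.expand_C,
            Polynomial.expand_X]
          congr 2
          have e5 : ∀ q, φ (Ideal.Quotient.mk I q) = Ideal.Quotient.mk I (bind₁ g q) := fun _ => rfl
          rw [e5]
          congr 1
          refine Fin.cases ?_ (fun j => ?_) i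
          · simp
          · simp
      exact congrArg (fun φ => φ p) h1
    have hmemP : ∀ {k : ℕ} {H : MvPolynomial (Fin (m + 1)) K}, H.IsHomogeneous k →
        (H ∈ RingHom.ker (psi I) ↔ deh H ∈ I) := by
      intro k H hH
      rw [RingHom.mem_ker]
      have h1 := psi_hom I hH
      constructor
      · intro h2
        have h3 : Polynomial.C (Ideal.Quotient.mk I (deh H)) * Polynomial.X ^ k = 0 := h1.symm.trans h2
        have h4 := congrArg (fun q => Polynomial.coeff q k) h3
        simp only [Polynomial.coeff_C_mul_X_pow, Polynomial.coeff_zero, if_true] at h4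
        exact Ideal.Quotient.eq_zero_iff_mem.mp h4
      · intro h2
        refine h1.trans ?_
        rw [Ideal.Quotient.eq_zero_iff_mem.mpr h2, Polynomial.C_0, zero_mul]
    have h1I : (1 : MvPolynomial (Fin m) K) ∉ I := fun h1 => hIne ((Ideal.eq_top_iff_one I).mpr h1)
    have hfin := hQ m (RingHom.ker (psi I)) (RingHom.ker_isPrime _)
      (by
        intro p hp k
        rw [mem_ker_psi] at hp
        rw [hmemP (homogeneousComponent_isHomogeneous k p)]
        exact hp k)
      ⟨0, by
        rw [hmemP (isHomogeneous_X K 0)]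
        simpa [deh] using h1I⟩
      d F hF
      ⟨0, by
        rw [hmemP (hF 0), hFdeh]
        simpa using h1I⟩
      (by
        intro p hp
        have hp' : psi I p = 0 := hp
        show psi I (bind₁ F p) = 0
        rw [hcomm, hp', map_zero])
      (by
        intro p hp
        have hp' : psi I (bind₁ F p) = 0 := hp
        show psi I p = 0
        rw [hcomm] at hp'
        exact hΘ (hp'.trans (map_zero Θ).symm))
      (fun n => Fin.cons 1 (x (s + n * T)))
      (by
        intro h1
        have := congrFun h1 0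
        simp at this)
      (by
        intro p hp
        rw [eval_cons_one]
        rw [mem_ker_psi] at hp
        have h1 : deh p ∈ I := by
          rw [← sum_homogeneousComponent p, map_sum]
          exact Ideal.sum_mem _ fun k _ => hp k
        have h2 := h1 0
        exact h2)
      (by
        intro n
        refine ⟨d, F, hF, ⟨0, ?_⟩, ?_, ⟨0, ?_⟩, 1, one_ne_zero, ?_⟩
        · rw [hmemP (hF 0), hFdeh]
          simpa using h1I
        · intro i j
          rw [mul_comm, sub_self]
          exact Ideal.zero_mem _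
        · rw [eval_cons_one, hFdeh]
          simp
        · rw [one_smul]
          funext i
          rw [eval_cons_one, hFdeh]
          refine Fin.cases ?_ (fun j => ?_) i
          · simp
          · rw [Fin.cons_succ, Fin.cons_succ, hg, eval_itp hx]
            congr 1
            ring_nf)
      (by
        intro k H hH hzero
        rw [hmemP hH]
        intro n
        have h1 := hzero n
        rw [eval_cons_one] at h1
        exact h1)
      q.totalDegree (hmg q.totalDegree q) (hmg_hom _ _)
      (by
        rw [hmemP (hmg_hom _ _), deh_hmg le_rfl]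
        exact hq)
    refine hfin.subset fun n hn => ?_
    show eval _ _ = 0
    rw [eval_cons_one, deh_hmg le_rfl]
    exact hn
  -- conclusion
  refine evPer_of_consts (s := s) hT fun j => ?_
  by_cases hj : bind₁ (itp f j) h ∈ I
  · refine ⟨0, Or.inl fun n _ => ?_⟩
    have h1 := hj n
    show eval (x (s + j + n * T)) h = 0
    rw [eval_bind_itp hx, show s + n * T + j = s + j + n * T by ring] at h1
    exact h1
  · obtain ⟨B, hB⟩ := (key _ hj).bddAbove
    refine ⟨B + 1, Or.inr fun n hn h1 => ?_⟩
    have h2 : n ∈ {n : ℕ | eval (x (s + n * T)) (bind₁ (itp f j) h) = 0} := by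
      show eval (x (s + n * T)) (bind₁ (itp f j) h) = 0
      rw [eval_bind_itp hx, show s + n * T + j = s + j + n * T by ring]
      exact h1
    have := hB h2
    omega

end

/-- The polynomial map of a quadratic recurrence. -/
theorem evPer_rec {K : Type} [Field K] [CharZero K] (hQ : Q1 K) {M : ℕ} (hM : 2 ≤ M)
    (ε : ℕ → ℕ → ℤ) (a : ℕ → ℤ)
    (hrec : ∀ n, a (n + M) = ∑ j ∈ Finset.range M, ∑ i ∈ Finset.range j,
      ε i j * (a (n + i) * a (n + j))) : EvPer {n : ℕ | a n = 0} := by
  let f : Fin M → MvPolynomial (Fin M) K := fun k =>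
    if hk : k.1 + 1 < M then X ⟨k.1 + 1, hk⟩
    else ∑ j : Fin M, ∑ i : Fin M, if i.1 < j.1 then C ((ε i.1 j.1 : ℤ) : K) * (X i * X j) else 0
  let x : ℕ → Fin M → K := fun n i => ((a (n + i.1) : ℤ) : K)
  have hx : ∀ n, x (n + 1) = fun i => eval (x n) (f i) := by
    intro n
    funext k
    by_cases hk : k.1 + 1 < M
    · have h1 : f k = X ⟨k.1 + 1, hk⟩ := dif_pos hk
      rw [h1, eval_X]
      show ((a (n + 1 + k.1) : ℤ) : K) = ((a (n + (k.1 + 1)) : ℤ) : K)
      rw [show n + 1 + k.1 = n + (k.1 + 1) by ring]
    · have h1 : f k = ∑ j : Fin M, ∑ i : Fin M,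
          if i.1 < j.1 then C ((ε i.1 j.1 : ℤ) : K) * (X i * X j) else 0 := dif_neg hk
      have hkM : n + 1 + k.1 = n + M := by have := k.2; omega
      rw [h1, map_sum]
      show ((a (n + 1 + k.1) : ℤ) : K) = _
      rw [hkM, hrec n]
      push_cast
      rw [← Fin.sum_univ_eq_sum_range (fun j => ∑ i ∈ Finset.range j,
        ((ε i j : ℤ) : K) * (((a (n + i) : ℤ) : K) * ((a (n + j) : ℤ) : K))) M]
      refine Finset.sum_congr rfl fun j _ => ?_
      rw [map_sum]
      have h2 : ∀ i : Fin M, eval (x n)
          (if i.1 < j.1 then C ((ε i.1 j.1 : ℤ) : K) * (X i * X j) else 0) =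
          (fun i : ℕ => if i < j.1 then ((ε i j.1 : ℤ) : K) * (((a (n + i) : ℤ) : K) *
            ((a (n + j.1) : ℤ) : K)) else 0) i.1 := by
        intro i
        by_cases hij : i.1 < j.1
        · simp only [if_pos hij, map_mul, eval_C, eval_X, x]
        · simp only [if_neg hij, map_zero]
      rw [Finset.sum_congr rfl fun i _ => h2 i, Fin.sum_univ_eq_sum_range
        (fun i : ℕ => if i < j.1 then ((ε i j.1 : ℤ) : K) * (((a (n + i) : ℤ) : K) *
            ((a (n + j.1) : ℤ) : K)) else 0) M, ← Finset.sum_filter]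
      refine Finset.sum_congr ?_ fun _ _ => rfl
      ext i
      simp only [Finset.mem_range, Finset.mem_filter]
      have := j.2
      constructor
      · intro h; exact ⟨by omega, h⟩
      · intro h; exact h.2
  have h3 := evPer_of_Q1 hQ f x hx (X ⟨0, by omega⟩)
  have h4 : {n | eval (x n) (X ⟨0, by omega⟩ : MvPolynomial (Fin M) K) = 0} = {n : ℕ | a n = 0} := by
    ext n
    show eval (x n) (X ⟨0, by omega⟩ : MvPolynomial (Fin M) K) = 0 ↔ a n = 0
    rw [eval_X]
    show ((a (n + 0) : ℤ) : K) = 0 ↔ a n = 0
    rw [add_zero]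
    exact Int.cast_eq_zero
  rw [h4] at h3
  exact h3

/-- PROOF: `evPer_rec` over the algebraic numbers. -/
theorem quadraticRecurrences_of_question (hQ : Question) : QuadraticRecurrences := by
  intro M ε a hM _ _ _ _ hrec
  have hQ' : Q1 (AlgebraicClosure ℚ) := hQ
  exact evPer_rec hQ' hM ε a hrec

end MP_f4ff90_agQ
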