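import Pool.Agent.Lib.MP_f4ff90_agQ.Sid

/-!
# Quadratic recurrences and polynomial self-maps of affine space over the integers
-/

set_option autoImplicit false

namespace MP_f4ff90_agQ

open Finset

variable {m : ℕ}

/-- The coefficients of the system of a program: the markers, the inputs, the instructions. -/
def coef (out : ℕ → ℕ) (e : ℕ → ℕ → ℕ → ℤ) (m : ℕ) (k u w : ℕ) : ℤ :=
  if k = 0 then (if u = 0 ∧ w = 1 then 1 else 0)
  else if k = 1 then (if u = 1 ∧ w = 0 then 1 else 0)
  else if k < 2 + m then (if u = out (k - 2) ∧ w = 0 then 1 else 0)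
  else (if u < w ∧ w < k then e k u w else 0)

theorem sgn_coef {out : ℕ → ℕ} {e : ℕ → ℕ → ℕ → ℤ} (he : ∀ k i j, Sgn (e k i j)) (m k u w : ℕ) :
    Sgn (coef out e m k u w) := by
  have h0 : Sgn 0 := Or.inr (Or.inl rfl)
  have h1 : Sgn 1 := Or.inr (Or.inr rfl)
  unfold coef
  split_ifs
  · exact h1
  · exact h0
  · exact h1
  · exact h0
  · exact h1
  · exact h0
  · exact he _ _ _
  · exact h0

theorem age_coef {R : ℕ} {out : ℕ → ℕ} {e : ℕ → ℕ → ℕ → ℤ} (ho : ∀ i < m, 2 + m ≤ out i) (k u w : ℕ)
    (_hk : k < R) (hu : u < R) (_hw : w < R) (h : coef out e m k u w ≠ 0) : dis R k w < dis R k u := by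
  have h5 : 2 ^ (R + 1) = 2 ^ R * 2 := pow_succ _ _
  have hu1 := pos_lt hu
  have p0 : pos 0 = 0 := rfl
  have p1 : pos 1 = 1 := rfl
  unfold coef at h
  by_cases h1 : k = 0
  · subst h1
    rw [if_pos rfl] at h
    by_cases h2 : u = 0 ∧ w = 1
    · obtain ⟨rfl, rfl⟩ := h2
      unfold dis
      rw [if_neg (by omega), if_neg (by omega), p0, p1]
      omega
    · exact absurd (if_neg h2) h
  rw [if_neg h1] at h
  by_cases h3 : k = 1
  · subst h3
    rw [if_pos rfl] at h
    by_cases h2 : u = 1 ∧ w = 0
    · obtain ⟨rfl, rfl⟩ := h2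
      unfold dis
      rw [if_pos (by omega), if_neg (by omega), p0, p1]
      omega
    · exact absurd (if_neg h2) h
  rw [if_neg h3] at h
  by_cases h4 : k < 2 + m
  · rw [if_pos h4] at h
    by_cases h2 : u = out (k - 2) ∧ w = 0
    · obtain ⟨rfl, rfl⟩ := h2
      have h9 := ho (k - 2) (by omega)
      unfold dis
      rw [if_pos (by omega), if_neg (by omega), p0]
      omega
    · exact absurd (if_neg h2) h
  rw [if_neg h4] at h
  by_cases h2 : u < w ∧ w < k
  · obtain ⟨h9, h10⟩ := h2
    unfold dis
    rw [if_pos h10, if_pos (h9.trans h10)]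
    have := pos_mono h9
    have := pos_mono h10
    omega
  · exact absurd (if_neg h2) h

/-- Zeros along the orbit of `0`. -/
theorem evPer_zero (hQ : QuadraticRecurrences) (P : Fin m → MvPolynomial (Fin m) ℤ) (h : MvPolynomial (Fin m) ℤ)
    (x : ℕ → Fin m → ℤ) (hx0 : ∀ i, x 0 i = 0) (hx : ∀ n i, x (n + 1) i = MvPolynomial.eval (x n) (P i)) :
    EvPer {n | MvPolynomial.eval (x n) h = 0} := by
  obtain ⟨R, t, out, o, hv, hout, ho, hto⟩ := exists_program P h
  have hR := hv.le
  have hnode : ∀ k, ∃ e : ℕ → ℕ → ℤ, (∀ i j, Sgn (e i j)) ∧ (2 + m ≤ k → k < R → ∀ x, t k x = quad e t k x) := by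
    intro k
    by_cases hk : 2 + m ≤ k ∧ k < R
    · obtain ⟨e, he, h1⟩ := hv.node k hk.1 hk.2
      exact ⟨e, he, fun _ _ => h1⟩
    · exact ⟨fun _ _ => 0, fun _ _ => Or.inr (Or.inl rfl), fun h1 h2 => absurd ⟨h1, h2⟩ hk⟩
  choose e he hte using hnode
  let out' : ℕ → ℕ := fun i => if hi : i < m then out ⟨i, hi⟩ else 0
  have hout' : ∀ i < m, 2 + m ≤ out' i := by
    intro i hi
    show 2 + m ≤ if hi : i < m then out ⟨i, hi⟩ else 0
    rw [dif_pos hi]
    exact (hout _).1
  let V : ℕ → ℕ → ℤ := fun τ k => match τ with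
    | 0 => if k < 2 then 1 else 0
    | τ + 1 => t k (x τ)
  have hVs : ∀ τ k, V (τ + 1) k = t k (x τ) := fun _ _ => rfl
  have hV0 : ∀ k, V 0 k = if k < 2 then 1 else 0 := fun _ => rfl
  have hVone0 : ∀ τ, V τ 0 = 1 := by
    intro τ
    rcases τ with _ | τ
    · rw [hV0, if_pos (by omega)]
    · rw [hVs, hv.one0]
  have hVone0' : ∀ τ, V (τ + 1) 0 = 1 := fun τ => hVone0 (τ + 1)
  have hVone1 : ∀ τ, V τ 1 = 1 := by
    intro τ
    rcases τ with _ | τ
    · rw [hV0, if_pos (by omega)]
    · rw [hVs, hv.one1]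
  have hVout : ∀ τ (i : Fin m), V τ (out i) = x τ i := by
    intro τ i
    rcases τ with _ | τ
    · rw [hV0, if_neg (by have := (hout i).1; omega), hx0]
    · rw [hVs, (hout i).2.2, hx]
  have hrec : ∀ τ k, k < R → V (τ + 1) k =
      ∑ u ∈ range R, ∑ w ∈ range R, coef out' e m k u w * (last V τ k u * last V τ k w) := by
    intro τ k hk
    have single : ∀ a b : ℕ, a < R → b < R → (∀ u w, coef out' e m k u w = if u = a ∧ w = b then 1 else 0) →
        ∑ u ∈ range R, ∑ w ∈ range R, coef out' e m k u w * (last V τ k u * last V τ k w) = last V τ k a * last V τ k b := by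
      intro a b ha hb hc
      rw [Finset.sum_eq_single a]
      · rw [Finset.sum_eq_single b]
        · rw [hc, if_pos ⟨rfl, rfl⟩, one_mul]
        · intro w _ hw
          rw [hc, if_neg fun h => hw h.2, zero_mul]
        · intro h
          exact absurd (Finset.mem_range.2 hb) h
      · intro u _ hu
        refine Finset.sum_eq_zero fun w _ => ?_
        rw [hc, if_neg fun h => hu h.1, zero_mul]
      · intro h
        exact absurd (Finset.mem_range.2 ha) h
    by_cases h0 : k = 0
    · subst h0
      rw [single 0 1 (by omega) (by omega) fun u w => by unfold coef; rw [if_pos rfl]]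
      unfold last
      rw [if_neg (by omega), if_neg (by omega), hVone0, hVone1, mul_one]
      exact hVone0' τ
    by_cases h1 : k = 1
    · subst h1
      rw [single 1 0 (by omega) (by omega) fun u w => by unfold coef; rw [if_neg (by omega), if_pos rfl]]
      unfold last
      rw [if_neg (by omega), if_pos (by omega), hVone1, hVone0', mul_one]
      exact hVone1 (τ + 1)
    by_cases h2 : k < 2 + m
    · have hkm : k - 2 < m := by omega
      have ho1 : out' (k - 2) = out ⟨k - 2, hkm⟩ := by
        show (if hi : k - 2 < m then out ⟨k - 2, hi⟩ else 0) = _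
        rw [dif_pos hkm]
      have ho2 := hout ⟨k - 2, hkm⟩
      rw [single (out' (k - 2)) 0 (by rw [ho1]; exact ho2.2.1) (by omega) fun u w => by
        unfold coef
        rw [if_neg h0, if_neg h1, if_pos h2]]
      unfold last
      rw [if_neg (by rw [ho1]; omega), if_pos (by omega), ho1, hVout, hVone0', mul_one, hVs]
      have h3 := hv.inp ⟨k - 2, hkm⟩ (x τ)
      have h4 : 2 + (k - 2) = k := by omega
      rw [show (2 + ((⟨k - 2, hkm⟩ : Fin m) : ℕ)) = k from h4] at h3
      exact h3
    · have hc : ∀ u w, coef out' e m k u w = if u < w ∧ w < k then e k u w else 0 := by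
        intro u w
        unfold coef
        rw [if_neg h0, if_neg h1, if_neg h2]
      rw [hVs, hte k (by omega) hk]
      unfold quad
      rw [Finset.sum_comm]
      have hsub : range k ⊆ range R := Finset.range_subset_range.2 hk.le
      rw [← Finset.sum_subset hsub]
      · refine Finset.sum_congr rfl fun w hw => ?_
        rw [Finset.mem_range] at hw
        have hsub2 : range w ⊆ range R := Finset.range_subset_range.2 (hw.le.trans hk.le)
        rw [← Finset.sum_subset hsub2]
        · refine Finset.sum_congr rfl fun u hu => ?_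
          rw [Finset.mem_range] at hu
          rw [hc, if_pos ⟨hu, hw⟩]
          unfold last
          rw [if_pos (hu.trans hw), if_pos hw, hVs, hVs]
        · intro u _ hu
          rw [Finset.mem_range] at hu
          rw [hc, if_neg fun h => hu h.1, zero_mul]
      · intro w _ hw
        rw [Finset.mem_range] at hw
        refine Finset.sum_eq_zero fun u _ => ?_
        rw [hc, if_neg fun h => hw h.2, zero_mul]
  have hev := evPer_system hQ (by omega) (fun k u w => sgn_coef he m k u w) (fun k u w => age_coef hout' k u w)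
    (hVone0 0) (hVone1 0) (fun k hk => by rw [hV0, if_neg (by omega)]) hrec ho
  have h6 : {n | MvPolynomial.eval (x n) h = 0} = {n | n + 1 ∈ {τ | V τ o = 0}} := by
    ext n
    show MvPolynomial.eval (x n) h = 0 ↔ V (n + 1) o = 0
    rw [hVs, hto]
  rw [h6]
  have h7 := hev.comp Nat.one_pos 1
  simp only [one_mul] at h7
  exact h7

/-- Arbitrary initial values. -/
theorem evPer_fin (hQ : QuadraticRecurrences) (P : Fin m → MvPolynomial (Fin m) ℤ) (h : MvPolynomial (Fin m) ℤ)
    (x : ℕ → Fin m → ℤ) (hx : ∀ n i, x (n + 1) i = MvPolynomial.eval (x n) (P i)) :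
    EvPer {n | MvPolynomial.eval (x n) h = 0} := by
  let s : Fin m → MvPolynomial (Fin m) ℤ := fun i => MvPolynomial.X i + MvPolynomial.C (x 0 i)
  have hs : ∀ (z : Fin m → ℤ) (p : MvPolynomial (Fin m) ℤ),
      MvPolynomial.eval z (MvPolynomial.bind₁ s p) = MvPolynomial.eval (fun i => z i + x 0 i) p := by
    intro z p
    rw [← MvPolynomial.coe_aeval_eq_eval, ← MvPolynomial.coe_aeval_eq_eval]
    simp only [RingHom.coe_coe]
    rw [MvPolynomial.aeval_bind₁]
    congr 2
    funext i
    simp [s]
  have h1 := evPer_zero hQ (fun i => MvPolynomial.bind₁ s (P i) - MvPolynomial.C (x 0 i)) (MvPolynomial.bind₁ s h)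
    (fun n i => x n i - x 0 i) (fun i => sub_self _) (by
      intro n i
      rw [map_sub, MvPolynomial.eval_C, hs, hx]
      simp only [sub_add_cancel])
  have h2 : {n | MvPolynomial.eval (x n) h = 0} =
      {n | MvPolynomial.eval (fun i => x n i - x 0 i) (MvPolynomial.bind₁ s h) = 0} := by
    ext n
    show MvPolynomial.eval (x n) h = 0 ↔ MvPolynomial.eval (fun i => x n i - x 0 i) (MvPolynomial.bind₁ s h) = 0
    rw [hs]
    simp only [sub_add_cancel]
  rw [h2]
  exact h1

theorem integerMaps_of_quadraticRecurrences (hQ : QuadraticRecurrences) : IntegerMaps := by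
  intro ι _ P x hx h
  let e := Fintype.equivFin ι
  have h1 := evPer_fin hQ (fun i => MvPolynomial.rename e (P (e.symm i))) (MvPolynomial.rename e h)
    (fun n i => x n (e.symm i)) (by
      intro n i
      rw [hx, MvPolynomial.eval_rename]
      congr 2
      funext j
      simp)
  have h2 : ∀ n, MvPolynomial.eval (fun i => x n (e.symm i)) (MvPolynomial.rename e h) = MvPolynomial.eval (x n) h := by
    intro n
    rw [MvPolynomial.eval_rename]
    congr 2
    funext j
    simp
  simp only [h2] at h1
  exact h1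

end MP_f4ff90_agQ
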