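import Pool.Agent.Lib.MP_f4ff90_agQ.Defs

/-!
# Eventually periodic sets
-/

set_option autoImplicit false

namespace MP_f4ff90_agQ

theorem EvPer.mul {S : Set ℕ} {q N : ℕ} (h : ∀ n, N ≤ n → (n + q ∈ S ↔ n ∈ S)) (k : ℕ) :
    ∀ n, N ≤ n → (n + q * k ∈ S ↔ n ∈ S) := by
  induction k with
  | zero => intro n _; rw [Nat.mul_zero, Nat.add_zero]
  | succ k ih =>
    intro n hn
    have h1 : n + q * (k + 1) = (n + q * k) + q := by ring
    rw [h1, h _ (le_trans hn (Nat.le_add_right _ _)), ih n hn]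

theorem EvPer.of_finite {S : Set ℕ} (h : S.Finite) : EvPer S := by
  obtain ⟨b, hb⟩ := h.bddAbove
  refine ⟨1, b + 1, Nat.one_pos, fun n hn => ?_⟩
  constructor
  · intro h1
    have := hb h1
    omega
  · intro h1
    have := hb h1
    omega

theorem EvPer.univ : EvPer Set.univ := ⟨1, 0, Nat.one_pos, fun _ _ => by simp⟩

theorem EvPer.inter {S T : Set ℕ} (hS : EvPer S) (hT : EvPer T) : EvPer (S ∩ T) := by
  obtain ⟨q, N, hq, h⟩ := hS
  obtain ⟨q', N', hq', h'⟩ := hT
  refine ⟨q * q', max N N', Nat.mul_pos hq hq', fun n hn => ?_⟩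
  rw [Set.mem_inter_iff, Set.mem_inter_iff, EvPer.mul h q' n (le_trans (le_max_left _ _) hn)]
  rw [Nat.mul_comm q q', EvPer.mul h' q n (le_trans (le_max_right _ _) hn)]

/-- Restriction to an arithmetic progression. -/
theorem EvPer.comp {S : Set ℕ} (hS : EvPer S) {L : ℕ} (hL : 0 < L) (c : ℕ) : EvPer {t | L * t + c ∈ S} := by
  obtain ⟨q, N, hq, h⟩ := hS
  refine ⟨q, N, hq, fun n hn => ?_⟩
  show L * (n + q) + c ∈ S ↔ L * n + c ∈ S
  have h1 : L * (n + q) + c = (L * n + c) + q * L := by ring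
  rw [h1]
  refine EvPer.mul h L _ ?_
  nlinarith

/-- A set is eventually periodic if a shift of it is. -/
theorem EvPer.of_shift {S : Set ℕ} {c : ℕ} (hS : EvPer {t | t + c ∈ S}) : EvPer S := by
  obtain ⟨q, N, hq, h⟩ := hS
  refine ⟨q, N + c, hq, fun n hn => ?_⟩
  obtain ⟨m, rfl⟩ : ∃ m, n = m + c := ⟨n - c, by omega⟩
  have h1 := h m (by omega)
  have h2 : m + c + q = (m + q) + c := by ring
  rw [h2]
  exact h1

/-- A set is eventually periodic if its intersections with the residue classes modulo `L` are. -/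
theorem EvPer.of_classes {S : Set ℕ} {L : ℕ} (hL : 0 < L) (hS : ∀ c < L, EvPer {t | L * t + c ∈ S}) : EvPer S := by
  choose! q N hq h using hS
  refine ⟨L * ∏ c ∈ Finset.range L, q c, L * (∑ c ∈ Finset.range L, N c) + L, ?_, fun n hn => ?_⟩
  · exact Nat.mul_pos hL (Finset.prod_pos fun c hc => hq c (Finset.mem_range.1 hc))
  · have hc : n % L < L := Nat.mod_lt _ hL
    have hn1 : L * (n / L) + n % L = n := Nat.div_add_mod n L
    obtain ⟨Q, hQ⟩ : q (n % L) ∣ ∏ c ∈ Finset.range L, q c := Finset.dvd_prod_of_mem q (Finset.mem_range.2 hc)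
    have hN : N (n % L) ≤ n / L := by
      have h1 : N (n % L) ≤ ∑ c ∈ Finset.range L, N c :=
        Finset.single_le_sum (fun _ _ => Nat.zero_le _) (Finset.mem_range.2 hc)
      have h2 : ∑ c ∈ Finset.range L, N c ≤ n / L := by
        rw [Nat.le_div_iff_mul_le hL]
        rw [Nat.mul_comm]
        omega
      exact h1.trans h2
    have h3 := EvPer.mul (h (n % L) hc) Q (n / L) hN
    rw [← hQ] at h3
    have h4 : n + L * ∏ c ∈ Finset.range L, q c = L * (n / L + ∏ c ∈ Finset.range L, q c) + n % L := by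
      rw [Nat.mul_add, Nat.add_right_comm, hn1]
    rw [h4]
    have h5 : (L * (n / L) + n % L ∈ S) ↔ n ∈ S := by rw [hn1]
    exact h3.trans h5

end MP_f4ff90_agQ
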