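import Pool.Agent.Lib.MP_f4ff90_agQ.Defs

/-!
# Representations of a rational map
-/

set_option autoImplicit false

namespace MP_f4ff90_agQ

open MvPolynomial

/-- Homogeneous polynomials and scalars. -/
theorem aeval_scale {σ R B : Type} [Fintype σ] [CommRing R] [CommRing B] [Algebra R B] {p : MvPolynomial σ R} {k : ℕ}
    (hp : p.IsHomogeneous k) (c : B) (f : σ → B) : aeval (fun i => c * f i) p = c ^ k * aeval f p := by
  rw [aeval_def, aeval_def, eval₂_eq', eval₂_eq', Finset.mul_sum]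
  refine Finset.sum_congr rfl fun s hs => ?_
  have h1 : ∑ i, s i = k := by
    have h2 := hp (mem_support_iff.1 hs)
    have h3 : Finsupp.degree s = k := by
      rw [← h2]
      exact congrFun (congrArg _ Finsupp.degree_eq_weight_one) s
    rw [← h3, Finsupp.degree_eq_sum]
  have h3 : ∏ i, (c * f i) ^ s i = c ^ k * ∏ i, f i ^ s i := by
    rw [← h1, ← Finset.prod_pow_eq_pow_sum, ← Finset.prod_mul_distrib]
    exact Finset.prod_congr rfl fun i _ => mul_pow _ _ _
  rw [h3]
  ring

theorem eval_scale {σ R : Type} [Fintype σ] [CommRing R] {p : MvPolynomial σ R} {k : ℕ}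
    (hp : p.IsHomogeneous k) (c : R) (f : σ → R) : eval (fun i => c * f i) p = c ^ k * eval f p := by
  have h := aeval_scale hp c f
  rw [← coe_aeval_eq_eval, ← coe_aeval_eq_eval]
  exact h

variable {N : ℕ} {P : Ideal (MvPolynomial (Fin (N + 1)) (AlgebraicClosure ℚ))}
  {F : Fin (N + 1) → MvPolynomial (Fin (N + 1)) (AlgebraicClosure ℚ)}

/-- The module of the representations of the rational map. -/
def reps (P : Ideal (MvPolynomial (Fin (N + 1)) (AlgebraicClosure ℚ)))
    (F : Fin (N + 1) → MvPolynomial (Fin (N + 1)) (AlgebraicClosure ℚ)) :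
    Submodule (MvPolynomial (Fin (N + 1)) (AlgebraicClosure ℚ))
      (Fin (N + 1) → MvPolynomial (Fin (N + 1)) (AlgebraicClosure ℚ)) where
  carrier := {G | ∀ i j, F i * G j - F j * G i ∈ P}
  add_mem' := by
    intro G G' h h' i j
    have h1 := P.add_mem (h i j) (h' i j)
    have e : F i * (G + G') j - F j * (G + G') i = (F i * G j - F j * G i) + (F i * G' j - F j * G' i) := by
      rw [Pi.add_apply, Pi.add_apply]
      ring
    rw [e]
    exact h1
  zero_mem' := by
    intro i j
    rw [Pi.zero_apply, Pi.zero_apply, mul_zero, mul_zero, sub_zero]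
    exact P.zero_mem
  smul_mem' := by
    intro c G h i j
    have h1 := P.mul_mem_left c (h i j)
    have e : F i * (c • G) j - F j * (c • G) i = c * (F i * G j - F j * G i) := by
      rw [Pi.smul_apply, Pi.smul_apply, smul_eq_mul, smul_eq_mul]
      ring
    rw [e]
    exact h1

/-- Two representations are proportional. -/
theorem reps_prop (hP : P.IsPrime) (hF : ∃ i, F i ∉ P) {G G' : Fin (N + 1) → MvPolynomial (Fin (N + 1)) (AlgebraicClosure ℚ)}
    (hG : G ∈ reps P F) (hG' : G' ∈ reps P F) (i j : Fin (N + 1)) : G i * G' j - G j * G' i ∈ P := by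
  obtain ⟨k, hk⟩ := hF
  have h1 : F k ^ 2 * (G i * G' j - G j * G' i) ∈ P := by
    have e : F k ^ 2 * (G i * G' j - G j * G' i) =
        (F k * G i - F i * G k) * (F k * G' j) + F i * G k * (F k * G' j - F j * G' k) -
        ((F k * G j - F j * G k) * (F k * G' i) + F j * G k * (F k * G' i - F i * G' k)) := by ring
    rw [e]
    exact P.sub_mem (P.add_mem (P.mul_mem_right _ (hG k i)) (P.mul_mem_left _ (hG' k j)))
      (P.add_mem (P.mul_mem_right _ (hG k j)) (P.mul_mem_left _ (hG' k i)))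
  exact (hP.mem_or_mem h1).resolve_left fun h => hk (hP.mem_of_pow_mem 2 h)

/-- The representations map the variety to itself. -/
theorem reps_maps (hP : P.IsPrime) (hF : ∃ i, F i ∉ P) (hFP : ∀ p ∈ P, bind₁ F p ∈ P)
    {G : Fin (N + 1) → MvPolynomial (Fin (N + 1)) (AlgebraicClosure ℚ)} (hG : G ∈ reps P F) {k : ℕ}
    {p : MvPolynomial (Fin (N + 1)) (AlgebraicClosure ℚ)} (hp : p ∈ P) (hk : p.IsHomogeneous k) : bind₁ G p ∈ P := by
  obtain ⟨l, hl⟩ := hF
  have h1 : bind₁ (fun j => F l * G j) p - bind₁ (fun j => G l * F j) p ∈ P := by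
    rw [← Ideal.Quotient.eq]
    have e : ∀ H : Fin (N + 1) → MvPolynomial (Fin (N + 1)) (AlgebraicClosure ℚ),
        Ideal.Quotient.mk P (bind₁ H p) = aeval (fun j => Ideal.Quotient.mk P (H j)) p := by
      intro H
      exact comp_aeval_apply (f := H) (Ideal.Quotient.mkₐ (AlgebraicClosure ℚ) P) p
    rw [e, e]
    congr 2
    funext j
    rw [Ideal.Quotient.eq, mul_comm (G l)]
    exact hG l j
  have h2 : bind₁ (fun j => F l * G j) p = F l ^ k * bind₁ G p := aeval_scale hk (F l) G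
  have h3 : bind₁ (fun j => G l * F j) p = G l ^ k * bind₁ F p := aeval_scale hk (G l) F
  rw [h2, h3] at h1
  have h4 : F l ^ k * bind₁ G p ∈ P := by
    have h5 := P.add_mem h1 (P.mul_mem_left (G l ^ k) (hFP p hp))
    rwa [sub_add_cancel] at h5
  exact (hP.mem_or_mem h4).resolve_left fun h => hl (hP.mem_of_pow_mem k h)

theorem eval_smul_of_mem {x : Fin (N + 1) → AlgebraicClosure ℚ}
    (hPh : ∀ p ∈ P, ∀ k : ℕ, homogeneousComponent k p ∈ P) (hx : ∀ p ∈ P, eval x p = 0) (c : AlgebraicClosure ℚ) :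
    ∀ p ∈ P, eval (fun i => c * x i) p = 0 := by
  intro p hp
  rw [← sum_homogeneousComponent p, map_sum]
  refine Finset.sum_eq_zero fun k _ => ?_
  rw [eval_scale (homogeneousComponent_isHomogeneous k p), hx _ (hPh p hp k), mul_zero]

/-- The orbit stays on the variety. -/
theorem point_mem (hP : P.IsPrime) (hPh : ∀ p ∈ P, ∀ k : ℕ, homogeneousComponent k p ∈ P) (hF : ∃ i, F i ∉ P)
    (hFP : ∀ p ∈ P, bind₁ F p ∈ P) {y : ℕ → Fin (N + 1) → AlgebraicClosure ℚ} (hy : IsOrbit P F y) (n : ℕ) :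
    ∀ p ∈ P, eval (y n) p = 0 := by
  induction n with
  | zero => exact hy.2.1
  | succ n ih =>
    intro p hp
    obtain ⟨e, G, _, _, hG, _, c, _, h⟩ := hy.2.2 n
    have h1 : y (n + 1) = fun i => c * eval (y n) (G i) := by
      rw [h]
      rfl
    rw [h1]
    refine eval_smul_of_mem hPh (fun q hq => ?_) c p hp
    rw [← sum_homogeneousComponent q, map_sum]
    refine Finset.sum_eq_zero fun k _ => ?_
    have h2 := ih _ (reps_maps hP hF hFP hG (hPh q hq k) (homogeneousComponent_isHomogeneous k q))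
    rw [← coe_aeval_eq_eval] at h2 ⊢
    simp only [RingHom.coe_coe] at h2 ⊢
    rw [aeval_bind₁] at h2
    rw [← h2]
    rfl

/-- The values of a representation at a point over `y n` are proportional to `y (n + 1)`. -/
theorem reps_value (hP : P.IsPrime) (hPh : ∀ p ∈ P, ∀ k : ℕ, homogeneousComponent k p ∈ P) (hF : ∃ i, F i ∉ P)
    (hFP : ∀ p ∈ P, bind₁ F p ∈ P) {y : ℕ → Fin (N + 1) → AlgebraicClosure ℚ} (hy : IsOrbit P F y) (n : ℕ)
    {l : AlgebraicClosure ℚ} (hl : l ≠ 0) {G : Fin (N + 1) → MvPolynomial (Fin (N + 1)) (AlgebraicClosure ℚ)}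
    (hG : G ∈ reps P F) : ∃ μ : AlgebraicClosure ℚ, ∀ i, eval (fun j => l * y n j) (G i) = μ * y (n + 1) i := by
  obtain ⟨e, G', hhom, _, hG', ⟨i0, hi0⟩, c, hc, h⟩ := hy.2.2 n
  have hx := eval_smul_of_mem hPh (point_mem hP hPh hF hFP hy n) l
  set x : Fin (N + 1) → AlgebraicClosure ℚ := fun j => l * y n j with hxdef
  have h1 : ∀ i, eval x (G' i) = l ^ e * eval (y n) (G' i) := fun i => eval_scale (hhom i) l (y n)
  have h2 : eval x (G' i0) ≠ 0 := by
    rw [h1]
    exact mul_ne_zero (pow_ne_zero _ hl) hi0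
  refine ⟨eval x (G i0) / eval x (G' i0) * l ^ e / c, fun i => ?_⟩
  have h3 := hx _ (reps_prop hP hF hG hG' i i0)
  rw [map_sub, map_mul, map_mul, sub_eq_zero] at h3
  have h4 : y (n + 1) i = c * eval (y n) (G' i) := by
    rw [h]
    rfl
  have h5 : eval x (G i) = eval x (G i0) / eval x (G' i0) * eval x (G' i) := by
    field_simp
    exact h3
  rw [h5, h1 i, h4]
  field_simp

theorem span_vanish {r : ℕ} {g : Fin r → (Fin (N + 1) → MvPolynomial (Fin (N + 1)) (AlgebraicClosure ℚ))}
    {x : Fin (N + 1) → AlgebraicClosure ℚ} (hx : ∀ k i, eval x (g k i) = 0)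
    {G : Fin (N + 1) → MvPolynomial (Fin (N + 1)) (AlgebraicClosure ℚ)}
    (hG : G ∈ Submodule.span (MvPolynomial (Fin (N + 1)) (AlgebraicClosure ℚ)) (Set.range g)) :
    ∀ i, eval x (G i) = 0 := by
  induction hG using Submodule.span_induction with
  | mem G hG =>
    obtain ⟨k, rfl⟩ := hG
    exact hx k
  | zero => intro i; rw [Pi.zero_apply, map_zero]
  | add G G' _ _ h h' => intro i; rw [Pi.add_apply, map_add, h i, h' i, add_zero]
  | smul c G _ h => intro i; rw [Pi.smul_apply, smul_eq_mul, map_mul, h i, mul_zero]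

/-- Generators of the module of representations do not all vanish. -/
theorem reps_ne {y : ℕ → Fin (N + 1) → AlgebraicClosure ℚ} (hy : IsOrbit P F y) (n : ℕ)
    {l : AlgebraicClosure ℚ} (hl : l ≠ 0) {r : ℕ}
    {g : Fin r → (Fin (N + 1) → MvPolynomial (Fin (N + 1)) (AlgebraicClosure ℚ))}
    (hg : Submodule.span (MvPolynomial (Fin (N + 1)) (AlgebraicClosure ℚ)) (Set.range g) = reps P F) :
    ∃ k i, eval (fun j => l * y n j) (g k i) ≠ 0 := by
  by_contra hcon
  push Not at hcon
  obtain ⟨e, G', hhom, _, hG', ⟨i0, hi0⟩, _⟩ := hy.2.2 n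
  have h1 : G' ∈ Submodule.span (MvPolynomial (Fin (N + 1)) (AlgebraicClosure ℚ)) (Set.range g) := by
    rw [hg]
    exact hG'
  have h3 := span_vanish hcon h1 i0
  rw [eval_scale (hhom i0)] at h3
  exact mul_ne_zero (pow_ne_zero _ hl) hi0 h3

end MP_f4ff90_agQ
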