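import Pool.Agent.Lib.MP_f4ff90_agQ.Defs

/-!
# Orders and restriction of scalars
-/

set_option autoImplicit false

namespace MP_f4ff90_agQ

open MvPolynomial

/-- Finitely many algebraic numbers have a common denominator in an order. -/
theorem exists_order (T : Finset (AlgebraicClosure ℚ)) :
    ∃ (O : Subalgebra ℤ (AlgebraicClosure ℚ)) (D : ℤ) (m : ℕ) (_ : Module.Basis (Fin m) ℤ O), D ≠ 0 ∧
      ∀ t ∈ T, D • t ∈ O := by
  have h0 : Algebra.IsAlgebraic ℤ (AlgebraicClosure ℚ) :=
    (IsFractionRing.comap_isAlgebraic_iff (A := ℤ) (K := ℚ) (C := AlgebraicClosure ℚ)).2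
      (AlgebraicClosure.isAlgebraic ℚ)
  obtain ⟨D, hD, hint⟩ := Algebra.IsAlgebraic.exists_integral_multiples ℤ T
  have hfin : ((fun t => D • t) '' (T : Set (AlgebraicClosure ℚ))).Finite := T.finite_toSet.image _
  have h1 : Module.Finite ℤ (Algebra.adjoin ℤ ((fun t => D • t) '' (T : Set (AlgebraicClosure ℚ)))) :=
    Algebra.finite_adjoin_of_finite_of_isIntegral hfin (by
      rintro _ ⟨t, ht, rfl⟩
      exact hint t ht)
  refine ⟨Algebra.adjoin ℤ ((fun t => D • t) '' (T : Set (AlgebraicClosure ℚ))), D, _,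
    (Module.basisOfFiniteTypeTorsionFree').2, hD, fun t ht => ?_⟩
  exact Algebra.subset_adjoin ⟨t, ht, rfl⟩

/-- A common order for finitely many polynomials and numbers. -/
theorem exists_descent {σ κ τ : Type} [Fintype κ] [Fintype τ] (f : κ → MvPolynomial σ (AlgebraicClosure ℚ))
    (y : τ → AlgebraicClosure ℚ) :
    ∃ (O : Type) (_ : CommRing O) (m : ℕ) (_ : Module.Basis (Fin m) ℤ O) (φ : O →+* AlgebraicClosure ℚ)
      (D : AlgebraicClosure ℚ), Function.Injective φ ∧ D ≠ 0 ∧
      (∀ k, ∃ g : MvPolynomial σ O, map φ g = C D * f k) ∧ ∀ i, ∃ o : O, φ o = D * y i := by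
  classical
  obtain ⟨O, D, m, b, hD, hT⟩ := exists_order
    ((Finset.univ.biUnion fun k => (f k).support.image fun s => coeff s (f k)) ∪ Finset.univ.image y)
  refine ⟨O, inferInstance, m, b, O.val, (D : AlgebraicClosure ℚ), Subtype.val_injective, by exact_mod_cast hD,
    fun k => ?_, fun i => ?_⟩
  · have h1 : ∀ s, D • coeff s (f k) ∈ O := by
      intro s
      by_cases hs : s ∈ (f k).support
      · refine hT _ (Finset.mem_union_left _ (Finset.mem_biUnion.2 ⟨k, Finset.mem_univ k, ?_⟩))
        exact Finset.mem_image.2 ⟨s, hs, rfl⟩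
      · rw [notMem_support_iff.1 hs, smul_zero]
        exact O.zero_mem
    refine ⟨∑ s ∈ (f k).support, monomial s ⟨D • coeff s (f k), h1 s⟩, ?_⟩
    rw [map_sum]
    have h2 : ∀ s ∈ (f k).support, map (O.val : O →+* AlgebraicClosure ℚ) (monomial s ⟨D • coeff s (f k), h1 s⟩) =
        C (D : AlgebraicClosure ℚ) * monomial s (coeff s (f k)) := by
      intro s _
      rw [map_monomial, C_mul_monomial]
      congr 1
      show D • coeff s (f k) = _
      rw [zsmul_eq_mul]
    rw [Finset.sum_congr rfl h2, ← Finset.mul_sum, support_sum_monomial_coeff]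
  · have h1 : D • y i ∈ O := hT _ (Finset.mem_union_right _ (Finset.mem_image.2 ⟨i, Finset.mem_univ i, rfl⟩))
    refine ⟨⟨D • y i, h1⟩, ?_⟩
    show D • y i = _
    rw [zsmul_eq_mul]

/-- The coordinates of the value of a polynomial are polynomials in the coordinates. -/
theorem exists_coords {O : Type} [CommRing O] {m : ℕ} (b : Module.Basis (Fin m) ℤ O) {σ : Type}
    (f : MvPolynomial σ O) : ∃ p : Fin m → MvPolynomial (σ × Fin m) ℤ, ∀ u : σ × Fin m → ℤ,
      eval (fun i => ∑ c, u (i, c) • b c) f = ∑ a, (eval u (p a)) • b a := by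
  induction f using MvPolynomial.induction_on with
  | C o =>
    refine ⟨fun a => C (b.repr o a), fun u => ?_⟩
    rw [eval_C]
    simp only [eval_C]
    exact (b.sum_repr o).symm
  | add p q hp hq =>
    obtain ⟨p', hp'⟩ := hp
    obtain ⟨q', hq'⟩ := hq
    refine ⟨fun a => p' a + q' a, fun u => ?_⟩
    rw [map_add, hp', hq', ← Finset.sum_add_distrib]
    refine Finset.sum_congr rfl fun a _ => ?_
    rw [map_add, add_smul]
  | mul_X p i hp =>
    obtain ⟨p', hp'⟩ := hp
    refine ⟨fun e => ∑ a, ∑ c, C (b.repr (b a * b c) e) * (p' a * X (i, c)), fun u => ?_⟩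
    rw [map_mul, hp', eval_X, Finset.sum_mul_sum]
    have h1 : ∀ a c : Fin m, (eval u (p' a) • b a) * (u (i, c) • b c) =
        ∑ e, ((b.repr (b a * b c) e) * (eval u (p' a) * u (i, c))) • b e := by
      intro a c
      have h2 := b.sum_repr (b a * b c)
      calc (eval u (p' a) • b a) * (u (i, c) • b c) = (eval u (p' a) * u (i, c)) • (b a * b c) := by
            rw [smul_mul_smul_comm]
        _ = (eval u (p' a) * u (i, c)) • ∑ e, (b.repr (b a * b c) e) • b e := by rw [h2]
        _ = _ := by
            rw [Finset.smul_sum]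
            refine Finset.sum_congr rfl fun e _ => ?_
            rw [smul_smul, mul_comm]
    calc _ = ∑ a, ∑ c, ∑ e, ((b.repr (b a * b c) e) * (eval u (p' a) * u (i, c))) • b e :=
          Finset.sum_congr rfl fun a _ => Finset.sum_congr rfl fun c _ => h1 a c
      _ = ∑ e, ∑ a, ∑ c, ((b.repr (b a * b c) e) * (eval u (p' a) * u (i, c))) • b e := by
          rw [Finset.sum_congr rfl fun a _ => Finset.sum_comm, Finset.sum_comm]
      _ = _ := by
          refine Finset.sum_congr rfl fun e _ => ?_
          rw [map_sum, Finset.sum_smul]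
          refine Finset.sum_congr rfl fun a _ => ?_
          rw [map_sum, Finset.sum_smul]
          refine Finset.sum_congr rfl fun c _ => ?_
          rw [RingHom.map_mul, RingHom.map_mul, eval_C, eval_X]

end MP_f4ff90_agQ
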