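import Pool.Agent.Lib.MP_f4ff90_agQ.Per
import Pool.Agent.Lib.MP_f4ff90_agQ.Dig
import Pool.Agent.Lib.MP_f4ff90_agQ.Sca
import Pool.Agent.Lib.MP_f4ff90_agQ.Rep

/-!
# Integer polynomial maps and all rational self-maps
-/

set_option autoImplicit false

namespace MP_f4ff90_agQ

open MvPolynomial Finset

/-- The integer polynomial map which carries the orbit. -/
noncomputable def liftMap {ι : Type} (r E : ℕ) (pp : ℕ → ι → MvPolynomial ι ℤ) : Option ι → MvPolynomial (Option ι) ℤ
  | none => X none ^ E
  | some j => ∑ k ∈ range r, X none ^ k * rename some (pp k j)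

/-- The orbit of the integer polynomial map. -/
noncomputable def liftOrbit {ι : Type} (r E : ℕ) (pp : ℕ → ι → MvPolynomial ι ℤ) (t0 : ℤ) (u0 : ι → ℤ) :
    ℕ → Option ι → ℤ
  | 0 => fun j => j.elim t0 u0
  | n + 1 => fun j => eval (liftOrbit r E pp t0 u0 n) (liftMap r E pp j)

theorem liftOrbit_none {ι : Type} (r E : ℕ) (pp : ℕ → ι → MvPolynomial ι ℤ) (t0 : ℤ) (u0 : ι → ℤ) (n : ℕ) :
    liftOrbit r E pp t0 u0 (n + 1) none = liftOrbit r E pp t0 u0 n none ^ E := by
  show eval (liftOrbit r E pp t0 u0 n) (X none ^ E) = _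
  rw [map_pow, eval_X]

theorem eval_rename_some {ι : Type} (z : Option ι → ℤ) (p : MvPolynomial ι ℤ) :
    eval z (rename some p) = eval (fun j => z (some j)) p := by
  rw [eval_rename]
  rfl

theorem liftOrbit_some {ι : Type} (r E : ℕ) (pp : ℕ → ι → MvPolynomial ι ℤ) (t0 : ℤ) (u0 : ι → ℤ) (n : ℕ) (j : ι) :
    liftOrbit r E pp t0 u0 (n + 1) (some j) = ∑ k ∈ range r, liftOrbit r E pp t0 u0 n none ^ k *
      eval (fun j => liftOrbit r E pp t0 u0 n (some j)) (pp k j) := by
  show eval (liftOrbit r E pp t0 u0 n) (∑ k ∈ range r, X none ^ k * rename some (pp k j)) = _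
  rw [map_sum]
  refine Finset.sum_congr rfl fun k _ => ?_
  rw [map_mul, map_pow, eval_X, eval_rename_some]

/-- One equation. -/
theorem evPer_one (hI : IntegerMaps) {N : ℕ} {P : Ideal (MvPolynomial (Fin (N + 1)) (AlgebraicClosure ℚ))}
    {F : Fin (N + 1) → MvPolynomial (Fin (N + 1)) (AlgebraicClosure ℚ)} (hP : P.IsPrime)
    (hPh : ∀ p ∈ P, ∀ k : ℕ, homogeneousComponent k p ∈ P) (hF : ∃ i, F i ∉ P)
    (hFP : ∀ p ∈ P, bind₁ F p ∈ P) {y : ℕ → Fin (N + 1) → AlgebraicClosure ℚ} (hy : IsOrbit P F y)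
    {e : ℕ} {H : MvPolynomial (Fin (N + 1)) (AlgebraicClosure ℚ)} (hH : H.IsHomogeneous e) :
    EvPer {n : ℕ | eval (y n) H = 0} := by
  obtain ⟨r, g, hg⟩ := Submodule.fg_iff_exists_fin_generating_family.1 (IsNoetherian.noetherian (reps P F))
  obtain ⟨O, _, m, b, φ, D, hφ, hD, hpol, hnum⟩ := exists_descent (κ := Option (Fin r × Fin (N + 1)))
    (fun s => s.elim H fun s => g s.1 s.2) (y 0)
  obtain ⟨H', hH'⟩ := hpol none
  choose g' hg' using fun s : Fin r × Fin (N + 1) => hpol (some s)
  choose o ho using hnum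
  simp only [Option.elim_none] at hH'
  simp only [Option.elim_some] at hg'
  obtain ⟨pH, hpH⟩ := exists_coords b H'
  choose p hp using fun s : Fin r × Fin (N + 1) => exists_coords b (g' s)
  let pp : ℕ → Fin (N + 1) × Fin m → MvPolynomial (Fin (N + 1) × Fin m) ℤ :=
    fun k j => if h : k < r then p (⟨k, h⟩, j.1) j.2 else 0
  have hpp : ∀ (k : Fin r) (i : Fin (N + 1)) (a : Fin m), pp k (i, a) = p (k, i) a := by
    intro k i a
    show (if h : (k : ℕ) < r then p (⟨k, h⟩, i) a else 0) = _
    rw [dif_pos k.2]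
  let u0 : Fin (N + 1) × Fin m → ℤ := fun j => b.repr (o j.1) j.2
  obtain ⟨E, t0, hgrow⟩ := growth r pp u0
  set z := liftOrbit r E pp t0 u0 with hz
  have hdig := hgrow (fun n j => z n (some j)) (fun n => z n none) rfl rfl
    (fun n => liftOrbit_none r E pp t0 u0 n) (fun n j => liftOrbit_some r E pp t0 u0 n j)
  let x : ℕ → Fin (N + 1) → O := fun n i => ∑ a, z n (some (i, a)) • b a
  have hx : ∀ n i, x n i = ∑ a, z n (some (i, a)) • b a := fun _ _ => rfl
  -- the values of the polynomials of the family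
  have hval : ∀ (l : AlgebraicClosure ℚ) n, (∀ i, φ (x n i) = l * y n i) → ∀ (f : MvPolynomial (Fin (N + 1)) (AlgebraicClosure ℚ))
      (f' : MvPolynomial (Fin (N + 1)) O), map φ f' = C D * f → φ (eval (x n) f') = D * eval (fun i => l * y n i) f := by
    intro l n hl f f' hf
    have h1 : φ (eval (x n) f') = eval (fun i => φ (x n i)) (map φ f') := by
      rw [eval_map, ← eval₂_id, eval₂_comp_left, RingHom.comp_id]
      rfl
    have h2 : (fun i => φ (x n i)) = fun i => l * y n i := funext hl
    rw [h1, hf, map_mul, eval_C, h2]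
  have hstep : ∀ n i, x (n + 1) i = ∑ k : Fin r, (z n none) ^ (k : ℕ) • eval (x n) (g' (k, i)) := by
    intro n i
    rw [hx]
    have h1 : ∀ a, z (n + 1) (some (i, a)) • b a =
        ∑ k : Fin r, ((z n none) ^ (k : ℕ) * eval (fun j => z n (some j)) (p (k, i) a)) • b a := by
      intro a
      rw [hz, liftOrbit_some, ← hz, Finset.sum_smul, Finset.sum_range]
      refine Finset.sum_congr rfl fun k _ => ?_
      rw [hpp]
    rw [Finset.sum_congr rfl fun a _ => h1 a, Finset.sum_comm]
    refine Finset.sum_congr rfl fun k _ => ?_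
    have h2 : eval (x n) (g' (k, i)) = ∑ a, (eval (fun j => z n (some j)) (p (k, i) a)) • b a :=
      hp (k, i) (fun j => z n (some j))
    rw [h2, Finset.smul_sum]
    refine Finset.sum_congr rfl fun a _ => ?_
    rw [smul_smul]
  have main : ∀ n, ∃ l : AlgebraicClosure ℚ, l ≠ 0 ∧ ∀ i, φ (x n i) = l * y n i := by
    intro n
    induction n with
    | zero =>
      refine ⟨D, hD, fun i => ?_⟩
      have h1 : x 0 i = o i := b.sum_repr (o i)
      rw [h1, ho]
    | succ n ih =>
      obtain ⟨l, hl, hxl⟩ := ih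
      have hmu : ∀ k : Fin r, ∃ μ : AlgebraicClosure ℚ, ∀ i, eval (fun j => l * y n j) (g k i) = μ * y (n + 1) i := by
        intro k
        refine reps_value hP hPh hF hFP hy n hl ?_
        rw [← hg]
        exact Submodule.subset_span ⟨k, rfl⟩
      choose μ hμ using hmu
      have h1 : ∀ i, φ (x (n + 1) i) = (∑ k : Fin r, ((z n none : ℤ) : AlgebraicClosure ℚ) ^ (k : ℕ) * (D * μ k)) * y (n + 1) i := by
        intro i
        rw [hstep, map_sum, Finset.sum_mul]
        refine Finset.sum_congr rfl fun k _ => ?_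
        rw [zsmul_eq_mul, map_mul, hval l n hxl _ _ (hg' (k, i)), hμ k i]
        push_cast
        rw [map_pow, map_intCast]
        ring
      refine ⟨_, ?_, h1⟩
      intro h0
      obtain ⟨k, i, hki⟩ := reps_ne hy n hl hg
      have h2 : x (n + 1) i = 0 := by
        apply hφ
        rw [h1, h0, zero_mul, map_zero]
      have h3 : ∀ a, z (n + 1) (some (i, a)) = 0 := by
        intro a
        have h4 := b.linearIndependent
        rw [Fintype.linearIndependent_iff] at h4
        exact h4 (fun a => z (n + 1) (some (i, a))) h2 a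
      have h5 : ∀ a, eval (fun j => z n (some j)) (p (k, i) a) = 0 := by
        intro a
        have h6 := h3 a
        rw [hz, liftOrbit_some, ← hz] at h6
        have h7 := digits (z n none) r (fun k => eval (fun j => z n (some j)) (pp k (i, a)))
          (fun k hk => hdig n k hk (i, a)) h6 k k.2
        rw [hpp] at h7
        exact h7
      have h6 : eval (x n) (g' (k, i)) = 0 := by
        have h7 : eval (x n) (g' (k, i)) = ∑ a, (eval (fun j => z n (some j)) (p (k, i) a)) • b a :=
          hp (k, i) (fun j => z n (some j))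
        rw [h7]
        refine Finset.sum_eq_zero fun a _ => ?_
        rw [h5, zero_smul]
      have h7 := hval l n hxl _ _ (hg' (k, i))
      rw [h6, map_zero] at h7
      exact mul_ne_zero hD hki h7.symm
  let h : MvPolynomial (Option (Fin (N + 1) × Fin m)) ℤ := ∑ a, rename some (pH a) ^ 2
  have hh : ∀ n, eval (z n) h = 0 ↔ eval (y n) H = 0 := by
    intro n
    obtain ⟨l, hl, hxl⟩ := main n
    have h1 : eval (z n) h = ∑ a, (eval (fun j => z n (some j)) (pH a)) ^ 2 := by
      show eval (z n) (∑ a, rename some (pH a) ^ 2) = _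
      rw [map_sum]
      refine Finset.sum_congr rfl fun a _ => ?_
      rw [map_pow, eval_rename_some]
    have h2 : φ (eval (x n) H') = D * (l ^ e * eval (y n) H) := by
      rw [hval l n hxl _ _ hH', eval_scale hH]
    have h3 : eval (x n) H' = ∑ a, (eval (fun j => z n (some j)) (pH a)) • b a := hpH (fun j => z n (some j))
    rw [h1, Finset.sum_eq_zero_iff_of_nonneg fun a _ => sq_nonneg _]
    constructor
    · intro h4
      have h5 : eval (x n) H' = 0 := by
        rw [h3]
        refine Finset.sum_eq_zero fun a ha => ?_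
        rw [pow_eq_zero_iff (two_ne_zero) |>.1 (h4 a ha), zero_smul]
      rw [h5, map_zero] at h2
      exact (mul_eq_zero.1 ((mul_eq_zero.1 h2.symm).resolve_left hD)).resolve_left (pow_ne_zero _ hl)
    · intro h4 a _
      rw [h4, mul_zero, mul_zero] at h2
      have h5 : eval (x n) H' = 0 := hφ (h2.trans (map_zero φ).symm)
      rw [h3] at h5
      have h6 := b.linearIndependent
      rw [Fintype.linearIndependent_iff] at h6
      rw [h6 (fun a => eval (fun j => z n (some j)) (pH a)) h5 a]
      norm_num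
  have h7 := hI (Option (Fin (N + 1) × Fin m)) (liftMap r E pp) z (fun _ _ => rfl) h
  have h8 : {n : ℕ | eval (z n) h = 0} = {n : ℕ | eval (y n) H = 0} := by
    ext n
    exact hh n
  rw [← h8]
  exact h7

theorem mordellLang_of_integerMaps (hI : IntegerMaps) : MordellLang := by
  classical
  intro N P hP hPh d F hFh hF hFP y hy 𝓗 h𝓗
  have hfg : (Submodule.span (MvPolynomial (Fin (N + 1)) (AlgebraicClosure ℚ)) 𝓗).FG := IsNoetherian.noetherian _
  obtain ⟨s, hs, hspan⟩ := (Submodule.fg_span_iff_fg_span_finset_subset 𝓗).1 hfg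
  have h1 : {n : ℕ | ∀ H ∈ 𝓗, eval (y n) H = 0} = {n : ℕ | ∀ H ∈ s, eval (y n) H = 0} := by
    ext n
    constructor
    · intro h H hH
      exact h H (hs hH)
    · intro h H hH
      have h2 : H ∈ Submodule.span (MvPolynomial (Fin (N + 1)) (AlgebraicClosure ℚ)) (s : Set (MvPolynomial (Fin (N + 1)) (AlgebraicClosure ℚ))) := by
        rw [← hspan]
        exact Submodule.subset_span hH
      have h3 : Submodule.span (MvPolynomial (Fin (N + 1)) (AlgebraicClosure ℚ)) (s : Set (MvPolynomial (Fin (N + 1)) (AlgebraicClosure ℚ))) ≤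
          RingHom.ker (eval (y n)) := by
        rw [Submodule.span_le]
        intro G hG
        exact h G hG
      exact h3 h2
  rw [h1]
  clear h1 hspan
  induction s using Finset.induction_on with
  | empty =>
    have h2 : {n : ℕ | ∀ H ∈ (∅ : Finset (MvPolynomial (Fin (N + 1)) (AlgebraicClosure ℚ))), eval (y n) H = 0} = Set.univ := by
      ext n
      simp
    rw [h2]
    exact EvPer.univ
  | insert H s _ ih =>
    obtain ⟨k, hk⟩ := h𝓗 H (hs (by simp))
    have h2 : {n : ℕ | ∀ G ∈ insert H s, eval (y n) G = 0} =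
        {n : ℕ | eval (y n) H = 0} ∩ {n : ℕ | ∀ G ∈ s, eval (y n) G = 0} := by
      ext n
      simp
    rw [h2]
    exact (evPer_one hI hP hPh hF hFP hy hk).inter (ih fun G hG => hs (by simp [Finset.mem_coe.1 hG]))

end MP_f4ff90_agQ
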