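import Pool.Agent.Lib.MP_f4ff90_agQ.Slp
import Pool.Agent.Lib.MP_f4ff90_agQ.Per

/-!
# A program as one quadratic recurrence

The entry number `k` of a block of length `2 ^ (R + 1)` is stored at the place `2 ^ k - 1`.
-/

set_option autoImplicit false

namespace MP_f4ff90_agQ

open Finset

/-- The place of the entry `k`. -/
def pos (k : ℕ) : ℕ := 2 ^ k - 1

theorem pos_add (k : ℕ) : pos k + 1 = 2 ^ k := Nat.sub_add_cancel Nat.one_le_two_pow

theorem pos_inj {k l : ℕ} (h : pos k = pos l) : k = l := by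
  have h1 := pos_add k
  have h2 := pos_add l
  rw [h, h2] at h1
  exact (Nat.pow_right_injective le_rfl h1).symm

theorem pos_lt {k R : ℕ} (h : k < R) : 2 * pos k + 2 ≤ 2 ^ R := by
  have h1 := pos_add k
  have h2 : 2 ^ (k + 1) ≤ 2 ^ R := Nat.pow_le_pow_right (by norm_num) h
  rw [pow_succ] at h2
  omega

theorem pos_mono {k l : ℕ} (h : k < l) : pos k < pos l := by
  have h1 := pos_add k
  have h2 := pos_add l
  have h3 : 2 ^ k < 2 ^ l := Nat.pow_lt_pow_right (by norm_num) h
  omega

/-- Sums of two powers of two. -/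
theorem two_pow_add : ∀ (n a b c d : ℕ), a + b + c + d ≤ n → 2 ^ a + 2 ^ b = 2 ^ c + 2 ^ d →
    (a = c ∧ b = d) ∨ (a = d ∧ b = c) := by
  intro n
  induction n with
  | zero =>
    intro a b c d h _
    left
    omega
  | succ n ih =>
    intro a b c d hn h
    have key : ∀ k : ℕ, k = 0 ∨ (2 ^ k) % 2 = 0 ∧ 0 < k := by
      intro k
      rcases Nat.eq_zero_or_pos k with h0 | h0
      · exact Or.inl h0
      · obtain ⟨l, rfl⟩ : ∃ l, k = l + 1 := ⟨k - 1, by omega⟩
        right
        rw [pow_succ]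
        omega
    rcases key a with rfl | ⟨ha, ha'⟩ <;> rcases key b with rfl | ⟨hb, hb'⟩ <;>
      rcases key c with rfl | ⟨hc, hc'⟩ <;> rcases key d with rfl | ⟨hd, hd'⟩
    all_goals try (rw [pow_zero] at h)
    · exact Or.inl ⟨rfl, rfl⟩
    · omega
    · omega
    · exfalso
      obtain ⟨l, rfl⟩ : ∃ l, c = l + 1 := ⟨c - 1, by omega⟩
      obtain ⟨l', rfl⟩ : ∃ l', d = l' + 1 := ⟨d - 1, by omega⟩
      have h1 := Nat.one_le_two_pow (n := l)
      have h2 := Nat.one_le_two_pow (n := l')
      rw [pow_succ, pow_succ] at h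
      omega
    · exfalso
      obtain ⟨l, rfl⟩ : ∃ l, b = l + 1 := ⟨b - 1, by omega⟩
      have h1 := Nat.one_le_two_pow (n := l)
      rw [pow_succ] at h
      omega
    · left
      refine ⟨rfl, ?_⟩
      have h1 : 2 ^ b = 2 ^ d := by omega
      exact Nat.pow_right_injective le_rfl h1
    · right
      refine ⟨rfl, ?_⟩
      have h1 : 2 ^ b = 2 ^ c := by omega
      exact Nat.pow_right_injective le_rfl h1
    · omega
    · exfalso
      obtain ⟨l, rfl⟩ : ∃ l, a = l + 1 := ⟨a - 1, by omega⟩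
      have h1 := Nat.one_le_two_pow (n := l)
      rw [pow_succ] at h
      omega
    · right
      refine ⟨?_, rfl⟩
      have h1 : 2 ^ a = 2 ^ d := by omega
      exact Nat.pow_right_injective le_rfl h1
    · left
      refine ⟨?_, rfl⟩
      have h1 : 2 ^ a = 2 ^ c := by omega
      exact Nat.pow_right_injective le_rfl h1
    · omega
    · exfalso
      obtain ⟨l, rfl⟩ : ∃ l, a = l + 1 := ⟨a - 1, by omega⟩
      obtain ⟨l', rfl⟩ : ∃ l', b = l' + 1 := ⟨b - 1, by omega⟩
      have h1 := Nat.one_le_two_pow (n := l)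
      have h2 := Nat.one_le_two_pow (n := l')
      rw [pow_succ, pow_succ] at h
      omega
    · omega
    · omega
    · obtain ⟨a', rfl⟩ : ∃ l, a = l + 1 := ⟨a - 1, by omega⟩
      obtain ⟨b', rfl⟩ : ∃ l, b = l + 1 := ⟨b - 1, by omega⟩
      obtain ⟨c', rfl⟩ : ∃ l, c = l + 1 := ⟨c - 1, by omega⟩
      obtain ⟨d', rfl⟩ : ∃ l, d = l + 1 := ⟨d - 1, by omega⟩
      rw [pow_succ, pow_succ, pow_succ, pow_succ] at h
      rcases ih a' b' c' d' (by omega) (by omega) with ⟨h1, h2⟩ | ⟨h1, h2⟩
      · left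
        omega
      · right
        omega

/-- The places form a Sidon set modulo `2 ^ (R + 1)`. -/
theorem sidon {R u w u' w' : ℕ} (hu : u < R) (hw : w < R) (hu' : u' < R) (hw' : w' < R) (hne : u ≠ w)
    (h : pos u + pos w' ≡ pos u' + pos w [MOD 2 ^ (R + 1)]) : u = u' ∧ w = w' := by
  have h1 := pos_lt hu
  have h2 := pos_lt hw
  have h3 := pos_lt hu'
  have h4 := pos_lt hw'
  have h5 : 2 ^ (R + 1) = 2 ^ R * 2 := pow_succ _ _
  have h6 : pos u + pos w' = pos u' + pos w :=
    Nat.ModEq.eq_of_lt_of_lt h (by omega) (by omega)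
  have h7 : 2 ^ u + 2 ^ w' = 2 ^ u' + 2 ^ w := by
    have e1 := pos_add u
    have e2 := pos_add w
    have e3 := pos_add u'
    have e4 := pos_add w'
    omega
  rcases two_pow_add _ _ _ _ _ le_rfl h7 with ⟨h8, h9⟩ | ⟨h8, _⟩
  · exact ⟨h8, h9.symm⟩
  · exact absurd h8 hne

/-- The distance from the place of the entry `k` back to the last place of the entry `u`. -/
def dis (R k u : ℕ) : ℕ := if u < k then pos k - pos u else 2 ^ (R + 1) + pos k - pos u

theorem dis_pos {R k u : ℕ} (hu : u < R) : 1 ≤ dis R k u := by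
  unfold dis
  split_ifs with h
  · have := pos_mono h
    omega
  · have h1 := pos_lt hu
    have h5 : 2 ^ (R + 1) = 2 ^ R * 2 := pow_succ _ _
    omega

theorem dis_le {R k u : ℕ} (hk : k < R) : dis R k u ≤ 2 ^ (R + 1) := by
  unfold dis
  split_ifs with h
  · have h1 := pos_lt hk
    have h5 : 2 ^ (R + 1) = 2 ^ R * 2 := pow_succ _ _
    omega
  · have h1 : pos k ≤ pos u := by
      rcases Nat.lt_or_eq_of_le (Nat.le_of_not_lt h) with h2 | rfl
      · exact (pos_mono h2).le
      · exact le_rfl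
    generalize 2 ^ (R + 1) = L
    omega

theorem dis_mod {R k u : ℕ} (hu : u < R) : dis R k u + pos u ≡ pos k [MOD 2 ^ (R + 1)] := by
  unfold dis
  split_ifs with h
  · have := pos_mono h
    rw [Nat.sub_add_cancel this.le]
  · have h1 := pos_lt hu
    have h5 : 2 ^ (R + 1) = 2 ^ R * 2 := pow_succ _ _
    have h6 : pos u ≤ 2 ^ (R + 1) + pos k := by omega
    rw [Nat.sub_add_cancel h6]
    show (2 ^ (R + 1) + pos k) % 2 ^ (R + 1) = pos k % 2 ^ (R + 1)
    rw [Nat.add_mod_left]

theorem pos_lt' {k R : ℕ} (h : k < R) : pos k < 2 ^ (R + 1) := by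
  have h1 := pos_lt h
  have h5 : 2 ^ (R + 1) = 2 ^ R * 2 := pow_succ _ _
  omega

/-- The sequence with the entries `V t k` at the places `2 ^ (R + 1) * t + pos k`. -/
def seqOf (R : ℕ) (V : ℕ → ℕ → ℤ) (n : ℕ) : ℤ :=
  ∑ k ∈ range R, if n % 2 ^ (R + 1) = pos k then V (n / 2 ^ (R + 1)) k else 0

theorem seqOf_pos {R : ℕ} (V : ℕ → ℕ → ℤ) (t : ℕ) {k : ℕ} (hk : k < R) :
    seqOf R V (2 ^ (R + 1) * t + pos k) = V t k := by
  have h1 := pos_lt' hk
  unfold seqOf
  rw [Nat.mul_add_mod, Nat.mod_eq_of_lt h1, Nat.mul_add_div (by positivity), Nat.div_eq_of_lt h1, Nat.add_zero,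
    Finset.sum_eq_single k]
  · rw [if_pos rfl]
  · intro j _ hj
    rw [if_neg fun h => hj (pos_inj h).symm]
  · intro h
    exact absurd (Finset.mem_range.2 hk) h

theorem seqOf_ne {R : ℕ} {V : ℕ → ℕ → ℤ} {n : ℕ} (h : seqOf R V n ≠ 0) : ∃ k < R, n % 2 ^ (R + 1) = pos k := by
  by_contra hcon
  push Not at hcon
  apply h
  unfold seqOf
  refine Finset.sum_eq_zero fun k hk => ?_
  rw [if_neg (hcon k (Finset.mem_range.1 hk))]

/-- The last value of the entry `u` before the entry `k` of the block `t + 1` is computed. -/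
def last (V : ℕ → ℕ → ℤ) (t k u : ℕ) : ℤ := if u < k then V (t + 1) u else V t u

theorem seqOf_last {R : ℕ} (V : ℕ → ℕ → ℤ) (t : ℕ) {k u : ℕ} (_hk : k < R) (hu : u < R) :
    seqOf R V (2 ^ (R + 1) * (t + 1) + pos k - dis R k u) = last V t k u := by
  unfold last dis
  split_ifs with h
  · have h1 := pos_mono h
    have e : 2 ^ (R + 1) * (t + 1) + pos k - (pos k - pos u) = 2 ^ (R + 1) * (t + 1) + pos u := by omega
    rw [e, seqOf_pos V _ hu]
  · have h1 := pos_lt hu
    have h5 : 2 ^ (R + 1) = 2 ^ R * 2 := pow_succ _ _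
    have e : 2 ^ (R + 1) * (t + 1) + pos k - (2 ^ (R + 1) + pos k - pos u) = 2 ^ (R + 1) * t + pos u := by
      rw [Nat.mul_add, Nat.mul_one]
      omega
    rw [e, seqOf_pos V _ hu]

/-- The coefficients of the recurrence. -/
def epsOf (R : ℕ) (C : ℕ → ℕ → ℕ → ℤ) (i j : ℕ) : ℤ :=
  ∑ t ∈ range R ×ˢ (range R ×ˢ range R),
    if i = 2 ^ (R + 1) - dis R t.1 t.2.1 ∧ j = 2 ^ (R + 1) - dis R t.1 t.2.2 then C t.1 t.2.1 t.2.2 else 0

theorem dis_key {R k u w k' u' w' : ℕ} (hk : k < R) (hu : u < R) (hw : w < R) (hk' : k' < R) (hu' : u' < R) (hw' : w' < R)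
    (hne : u ≠ w) (h1 : dis R k u = dis R k' u') (h2 : dis R k w = dis R k' w') : k = k' ∧ u = u' ∧ w = w' := by
  have e1 := dis_mod (R := R) (k := k) hu
  have e2 := dis_mod (R := R) (k := k) hw
  have e3 := dis_mod (R := R) (k := k') hu'
  have e4 := dis_mod (R := R) (k := k') hw'
  rw [← h1] at e3
  rw [← h2] at e4
  have e5 : (dis R k u + dis R k w) + (pos u + pos w') ≡ (dis R k u + dis R k w) + (pos u' + pos w) [MOD 2 ^ (R + 1)] := by
    have e6 := (e1.trans e2.symm).add (e4.trans e3.symm)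
    have a1 : dis R k u + pos u + (dis R k w + pos w') = (dis R k u + dis R k w) + (pos u + pos w') := by ring
    have a2 : dis R k w + pos w + (dis R k u + pos u') = (dis R k u + dis R k w) + (pos u' + pos w) := by ring
    rw [a1, a2] at e6
    exact e6
  obtain ⟨rfl, rfl⟩ := sidon hu hw hu' hw' hne (Nat.ModEq.add_left_cancel' _ e5)
  refine ⟨?_, rfl, rfl⟩
  exact pos_inj (Nat.ModEq.eq_of_lt_of_lt (e1.symm.trans e3) (pos_lt' hk) (pos_lt' hk'))

theorem sgn_epsOf {R : ℕ} {C : ℕ → ℕ → ℕ → ℤ} (hC : ∀ k u w, Sgn (C k u w))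
    (hage : ∀ k u w, k < R → u < R → w < R → C k u w ≠ 0 → dis R k w < dis R k u) (i j : ℕ) : Sgn (epsOf R C i j) := by
  by_cases h : ∃ t ∈ range R ×ˢ (range R ×ˢ range R), (if i = 2 ^ (R + 1) - dis R t.1 t.2.1 ∧
      j = 2 ^ (R + 1) - dis R t.1 t.2.2 then C t.1 t.2.1 t.2.2 else 0) ≠ 0
  · obtain ⟨⟨k, u, w⟩, ht, hne⟩ := h
    rw [Finset.mem_product, Finset.mem_product, Finset.mem_range, Finset.mem_range, Finset.mem_range] at ht
    obtain ⟨hk, hu, hw⟩ := ht
    simp only at hk hu hw hne
    split_ifs at hne with hc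
    · have huw : u ≠ w := by
        rintro rfl
        exact lt_irrefl _ (hage k u u hk hu hu hne)
      have e : epsOf R C i j = C k u w := by
        unfold epsOf
        rw [Finset.sum_eq_single (k, u, w)]
        · exact if_pos hc
        · rintro ⟨k', u', w'⟩ ht' hne'
          rw [Finset.mem_product, Finset.mem_product, Finset.mem_range, Finset.mem_range, Finset.mem_range] at ht'
          obtain ⟨hk', hu', hw'⟩ := ht'
          simp only at hk' hu' hw' ⊢
          rw [if_neg]
          rintro ⟨c1, c2⟩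
          apply hne'
          have d1 : dis R k u = dis R k' u' := by
            have a1 := dis_le (R := R) (u := u) hk
            have a2 := dis_le (R := R) (u := u') hk'
            have := hc.1
            omega
          have d2 : dis R k w = dis R k' w' := by
            have a1 := dis_le (R := R) (u := w) hk
            have a2 := dis_le (R := R) (u := w') hk'
            have := hc.2
            omega
          obtain ⟨rfl, rfl, rfl⟩ := dis_key hk hu hw hk' hu' hw' huw d1 d2
          rfl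
        · intro h
          exact absurd (Finset.mem_product.2 ⟨Finset.mem_range.2 hk, Finset.mem_product.2 ⟨Finset.mem_range.2 hu, Finset.mem_range.2 hw⟩⟩) h
      rw [e]
      exact hC k u w
    · exact absurd rfl hne
  · push Not at h
    right
    left
    exact Finset.sum_eq_zero h

/-- The recurrence. -/
theorem seqOf_rec {R : ℕ} {C : ℕ → ℕ → ℕ → ℤ}
    (hage : ∀ k u w, k < R → u < R → w < R → C k u w ≠ 0 → dis R k w < dis R k u) {V : ℕ → ℕ → ℤ}
    (hV : ∀ t k, k < R → V (t + 1) k = ∑ u ∈ range R, ∑ w ∈ range R, C k u w * (last V t k u * last V t k w)) (n : ℕ) :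
    seqOf R V (n + 2 ^ (R + 1)) = ∑ j ∈ range (2 ^ (R + 1)), ∑ i ∈ range j,
      epsOf R C i j * (seqOf R V (n + i) * seqOf R V (n + j)) := by
  set L := 2 ^ (R + 1) with hL
  have hL0 : 0 < L := by positivity
  have h1 : ∑ j ∈ range L, ∑ i ∈ range j, epsOf R C i j * (seqOf R V (n + i) * seqOf R V (n + j)) =
      ∑ t ∈ range R ×ˢ (range R ×ˢ range R), C t.1 t.2.1 t.2.2 *
        (seqOf R V (n + (L - dis R t.1 t.2.1)) * seqOf R V (n + (L - dis R t.1 t.2.2))) := by
    unfold epsOf
    simp_rw [Finset.sum_mul]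
    rw [Finset.sum_congr rfl fun j _ => Finset.sum_comm, Finset.sum_comm]
    refine Finset.sum_congr rfl ?_
    rintro ⟨k, u, w⟩ ht
    rw [Finset.mem_product, Finset.mem_product, Finset.mem_range, Finset.mem_range, Finset.mem_range] at ht
    obtain ⟨hk, hu, hw⟩ := ht
    simp only at hk hu hw ⊢
    by_cases hC0 : C k u w = 0
    · rw [hC0, zero_mul]
      refine Finset.sum_eq_zero fun j _ => Finset.sum_eq_zero fun i _ => ?_
      rw [ite_self, zero_mul]
    · have h3 := hage k u w hk hu hw hC0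
      have h4 := dis_pos (R := R) (k := k) hw
      have h5 := dis_le (R := R) (u := u) hk
      rw [Finset.sum_eq_single (L - dis R k w)]
      · rw [Finset.sum_eq_single (L - dis R k u)]
        · rw [if_pos ⟨rfl, rfl⟩]
        · intro i _ hi
          rw [if_neg fun h => hi h.1, zero_mul]
        · intro h
          exact absurd (Finset.mem_range.2 (by omega)) h
      · intro j _ hj
        refine Finset.sum_eq_zero fun i _ => ?_
        rw [if_neg fun h => hj h.2, zero_mul]
      · intro h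
        exact absurd (Finset.mem_range.2 (by omega)) h
  rw [h1]
  have hkey : ∀ k u w, k < R → u < R → w < R →
      C k u w * (seqOf R V (n + (L - dis R k u)) * seqOf R V (n + (L - dis R k w))) ≠ 0 → (n + L) % L = pos k := by
    intro k u w hk hu hw hne
    have hC0 : C k u w ≠ 0 := left_ne_zero_of_mul hne
    have hne2 := right_ne_zero_of_mul hne
    have huw : u ≠ w := by
      rintro rfl
      exact lt_irrefl _ (hage k u u hk hu hu hC0)
    obtain ⟨u', hu', e1⟩ := seqOf_ne (left_ne_zero_of_mul hne2)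
    obtain ⟨w', hw', e2⟩ := seqOf_ne (right_ne_zero_of_mul hne2)
    have a1 := dis_le (R := R) (u := u) hk
    have a2 := dis_le (R := R) (u := w) hk
    have b1 : n + L ≡ pos u' + dis R k u [MOD L] := by
      have c1 : n + L = (n + (L - dis R k u)) + dis R k u := by omega
      rw [c1, ← e1]
      exact (Nat.mod_modEq _ _).symm.add_right _
    have b2 : n + L ≡ pos w' + dis R k w [MOD L] := by
      have c1 : n + L = (n + (L - dis R k w)) + dis R k w := by omega
      rw [c1, ← e2]
      exact (Nat.mod_modEq _ _).symm.add_right _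
    have d1 := dis_mod (R := R) (k := k) hu
    have d2 := dis_mod (R := R) (k := k) hw
    have b3 : (dis R k u + dis R k w) + (pos u + pos w') ≡ (dis R k u + dis R k w) + (pos u' + pos w) [MOD L] := by
      have e6 := (d1.trans d2.symm).add (b2.symm.trans b1)
      have x1 : dis R k u + pos u + (pos w' + dis R k w) = (dis R k u + dis R k w) + (pos u + pos w') := by ring
      have x2 : dis R k w + pos w + (pos u' + dis R k u) = (dis R k u + dis R k w) + (pos u' + pos w) := by ring
      rw [x1, x2] at e6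
      exact e6
    obtain ⟨rfl, rfl⟩ := sidon hu hw hu' hw' huw (Nat.ModEq.add_left_cancel' _ b3)
    have b4 : n + L ≡ pos k [MOD L] := by
      rw [Nat.add_comm (pos u)] at b1
      exact b1.trans d1
    have b5 : (n + L) % L = pos k % L := b4
    rw [b5, Nat.mod_eq_of_lt (pos_lt' hk)]
  by_cases hcase : ∃ k < R, (n + L) % L = pos k
  · obtain ⟨k, hk, hmod⟩ := hcase
    obtain ⟨t, ht⟩ : ∃ t, n + L = L * (t + 1) + pos k := by
      refine ⟨n / L, ?_⟩
      have := Nat.div_add_mod (n + L) L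
      rw [hmod, Nat.add_div_right _ hL0] at this
      exact this.symm
    rw [ht, seqOf_pos V _ hk, hV t k hk]
    refine Eq.trans ?_ (Finset.sum_product _ _ _).symm
    refine Eq.trans ?_ (Finset.sum_eq_single k ?_ ?_).symm
    · refine Eq.trans ?_ (Finset.sum_product _ _ _).symm
      refine Finset.sum_congr rfl fun u hu => Finset.sum_congr rfl fun w hw => ?_
      rw [Finset.mem_range] at hu hw
      have a1 := dis_le (R := R) (u := u) hk
      have a2 := dis_le (R := R) (u := w) hk
      have e1 : n + (L - dis R k u) = L * (t + 1) + pos k - dis R k u := by omega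
      have e2 : n + (L - dis R k w) = L * (t + 1) + pos k - dis R k w := by omega
      simp only
      rw [e1, e2, seqOf_last V t hk hu, seqOf_last V t hk hw]
    · intro k' hk' hne
      refine Finset.sum_eq_zero ?_
      rintro ⟨u, w⟩ hx
      rw [Finset.mem_product, Finset.mem_range, Finset.mem_range] at hx
      simp only at hx ⊢
      by_contra hcon
      have := hkey k' u w (Finset.mem_range.1 hk') hx.1 hx.2 hcon
      rw [hmod] at this
      exact hne (pos_inj this).symm
    · intro h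
      exact absurd (Finset.mem_range.2 hk) h
  · have h2 : seqOf R V (n + L) = 0 := by
      by_contra hcon
      exact hcase (seqOf_ne hcon)
    rw [h2]
    refine (Finset.sum_eq_zero ?_).symm
    rintro ⟨k, u, w⟩ ht
    rw [Finset.mem_product, Finset.mem_product, Finset.mem_range, Finset.mem_range, Finset.mem_range] at ht
    simp only at ht ⊢
    by_contra hcon
    exact hcase ⟨k, ht.1, hkey k u w ht.1 ht.2.1 ht.2.2 hcon⟩

/-- Quadratic systems which are updated one entry after the other. -/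
theorem evPer_system (hQ : QuadraticRecurrences) {R : ℕ} (hR : 2 ≤ R) {C : ℕ → ℕ → ℕ → ℤ}
    (hC : ∀ k u w, Sgn (C k u w))
    (hage : ∀ k u w, k < R → u < R → w < R → C k u w ≠ 0 → dis R k w < dis R k u) {V : ℕ → ℕ → ℤ}
    (h0 : V 0 0 = 1) (h1 : V 0 1 = 1) (h2 : ∀ k, 2 ≤ k → V 0 k = 0)
    (hV : ∀ t k, k < R → V (t + 1) k = ∑ u ∈ range R, ∑ w ∈ range R, C k u w * (last V t k u * last V t k w))
    {k : ℕ} (hk : k < R) : EvPer {t | V t k = 0} := by
  have hL : 2 ^ (R + 1) = 2 ^ R * 2 := pow_succ _ _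
  have hR' : 2 ^ 2 ≤ 2 ^ R := Nat.pow_le_pow_right (by norm_num) hR
  have e0 : seqOf R V 0 = 1 := by
    have := seqOf_pos V 0 (show 0 < R by omega)
    rw [← h0, ← this]
    rfl
  have e1 : seqOf R V 1 = 1 := by
    have := seqOf_pos V 0 (show 1 < R by omega)
    rw [← h1, ← this]
    rfl
  have e2 : ∀ n, 2 ≤ n → n < 2 ^ (R + 1) → seqOf R V n = 0 := by
    intro n hn1 hn2
    by_contra hcon
    obtain ⟨j, hj, hj2⟩ := seqOf_ne hcon
    rw [Nat.mod_eq_of_lt hn2] at hj2
    have h3 := seqOf_pos V 0 hj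
    rw [Nat.mul_zero, Nat.zero_add, ← hj2] at h3
    apply hcon
    rw [h3]
    apply h2
    by_contra hlt
    have h4 : j = 0 ∨ j = 1 := by omega
    rcases h4 with rfl | rfl
    · have : pos 0 = 0 := rfl
      omega
    · have : pos 1 = 1 := rfl
      omega
  have h3 := hQ (2 ^ (R + 1)) (epsOf R C) (seqOf R V) (by omega) (sgn_epsOf hC hage) e0 e1 e2 (seqOf_rec hage hV)
  have h4 := h3.comp (show 0 < 2 ^ (R + 1) by positivity) (pos k)
  have h5 : {t | 2 ^ (R + 1) * t + pos k ∈ {n | seqOf R V n = 0}} = {t | V t k = 0} := by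
    ext t
    show seqOf R V (2 ^ (R + 1) * t + pos k) = 0 ↔ V t k = 0
    rw [seqOf_pos V t hk]
  rw [← h5]
  exact h4

end MP_f4ff90_agQ
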