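import Pool.Agent.Lib.MP_f4ff90_agQ.Defs

/-!
# Straight-line programs whose instructions are quadratic forms with coefficients `-1, 0, 1`
-/

set_option autoImplicit false

namespace MP_f4ff90_agQ

open Finset

/-- The coefficients `-1, 0, 1`. -/
def Sgn (c : ℤ) : Prop := c = -1 ∨ c = 0 ∨ c = 1

variable {m : ℕ}

/-- The value of the instruction `e` on the entries `t 0, …, t (k - 1)`. -/
def quad (e : ℕ → ℕ → ℤ) (t : ℕ → (Fin m → ℤ) → ℤ) (k : ℕ) (x : Fin m → ℤ) : ℤ :=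
  ∑ j ∈ range k, ∑ i ∈ range j, e i j * (t i x * t j x)

/-- A program with `R` entries: the first two are `1`, then the inputs, then the instructions. -/
structure Valid (R : ℕ) (t : ℕ → (Fin m → ℤ) → ℤ) : Prop where
  le : 2 + m ≤ R
  one0 : ∀ x, t 0 x = 1
  one1 : ∀ x, t 1 x = 1
  inp : ∀ (i : Fin m) (x : Fin m → ℤ), t (2 + (i : ℕ)) x = x i
  node : ∀ k, 2 + m ≤ k → k < R → ∃ e : ℕ → ℕ → ℤ, (∀ i j, Sgn (e i j)) ∧ ∀ x, t k x = quad e t k x

/-- The instruction which multiplies two entries. -/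
def pair (a b : ℕ) : ℕ → ℕ → ℤ := fun i j => if i = a ∧ j = b then 1 else 0

theorem quad_congr {e : ℕ → ℕ → ℤ} {t t' : ℕ → (Fin m → ℤ) → ℤ} {k : ℕ} (h : ∀ i < k, t i = t' i) :
    quad e t k = quad e t' k := by
  funext x
  unfold quad
  refine Finset.sum_congr rfl fun j hj => Finset.sum_congr rfl fun i hi => ?_
  rw [Finset.mem_range] at hj hi
  rw [h i (hi.trans hj), h j hj]

theorem quad_pair {t : ℕ → (Fin m → ℤ) → ℤ} {a b k : ℕ} (hab : a < b) (hbk : b < k) (x : Fin m → ℤ) :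
    quad (pair a b) t k x = t a x * t b x := by
  unfold quad
  rw [Finset.sum_eq_single b]
  · rw [Finset.sum_eq_single a]
    · rw [pair, if_pos ⟨rfl, rfl⟩, one_mul]
    · intro i _ hi
      rw [pair, if_neg fun h => hi h.1, zero_mul]
    · intro h
      exact absurd (Finset.mem_range.2 hab) h
  · intro j _ hj
    refine Finset.sum_eq_zero fun i _ => ?_
    rw [pair, if_neg fun h => hj h.2, zero_mul]
  · intro h
    exact absurd (Finset.mem_range.2 hbk) h

theorem quad_add (e e' : ℕ → ℕ → ℤ) (t : ℕ → (Fin m → ℤ) → ℤ) (k : ℕ) (x : Fin m → ℤ) :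
    quad (fun i j => e i j + e' i j) t k x = quad e t k x + quad e' t k x := by
  unfold quad
  rw [← Finset.sum_add_distrib]
  refine Finset.sum_congr rfl fun j _ => ?_
  rw [← Finset.sum_add_distrib]
  refine Finset.sum_congr rfl fun i _ => ?_
  rw [add_mul]

theorem quad_neg (e : ℕ → ℕ → ℤ) (t : ℕ → (Fin m → ℤ) → ℤ) (k : ℕ) (x : Fin m → ℤ) :
    quad (fun i j => - e i j) t k x = - quad e t k x := by
  unfold quad
  rw [← Finset.sum_neg_distrib]
  refine Finset.sum_congr rfl fun j _ => ?_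
  rw [← Finset.sum_neg_distrib]
  refine Finset.sum_congr rfl fun i _ => ?_
  rw [neg_mul]

theorem sgn_pair (a b i j : ℕ) : Sgn (pair a b i j) := by
  unfold pair Sgn
  split_ifs
  · exact Or.inr (Or.inr rfl)
  · exact Or.inr (Or.inl rfl)

theorem Valid.step {R : ℕ} {t : ℕ → (Fin m → ℤ) → ℤ} (h : Valid R t) (e : ℕ → ℕ → ℤ) (he : ∀ i j, Sgn (e i j)) :
    ∃ t' : ℕ → (Fin m → ℤ) → ℤ, Valid (R + 1) t' ∧ (∀ k < R, t' k = t k) ∧ t' R = quad e t R := by
  have hlt : ∀ k < R, Function.update t R (quad e t R) k = t k := fun k hk => Function.update_of_ne (ne_of_lt hk) _ _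
  have hR := h.le
  refine ⟨Function.update t R (quad e t R), ⟨by omega, ?_, ?_, ?_, ?_⟩, hlt, Function.update_self _ _ _⟩
  · intro x
    rw [hlt 0 (by omega)]
    exact h.one0 x
  · intro x
    rw [hlt 1 (by omega)]
    exact h.one1 x
  · intro i x
    have := i.2
    rw [hlt _ (by omega)]
    exact h.inp i x
  · intro k hk1 hk2
    rcases Nat.lt_succ_iff_lt_or_eq.1 hk2 with hk | rfl
    · obtain ⟨e', he', h'⟩ := h.node k hk1 hk
      refine ⟨e', he', fun x => ?_⟩
      rw [hlt k hk, h' x]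
      exact congrFun (quad_congr fun i hi => (hlt i (hi.trans hk)).symm) x
    · refine ⟨e, he, fun x => ?_⟩
      rw [Function.update_self]
      exact congrFun (quad_congr fun i hi => (hlt i hi).symm) x

/-- Every program can be extended to a program which computes `f`. -/
def CompF (f : (Fin m → ℤ) → ℤ) : Prop :=
  ∀ (R : ℕ) (t : ℕ → (Fin m → ℤ) → ℤ), Valid R t → ∃ (R' : ℕ) (t' : ℕ → (Fin m → ℤ) → ℤ),
    Valid R' t' ∧ R ≤ R' ∧ (∀ k < R, t' k = t k) ∧ ∃ a, 2 + m ≤ a ∧ a < R' ∧ t' a = f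

theorem Valid.copy {R : ℕ} {t : ℕ → (Fin m → ℤ) → ℤ} (h : Valid R t) {a : ℕ} (ha : a < R) :
    ∃ t' : ℕ → (Fin m → ℤ) → ℤ, Valid (R + 1) t' ∧ (∀ k < R, t' k = t k) ∧ t' R = t a := by
  have hR := h.le
  obtain ⟨t', h1, h2, h3⟩ := h.step (pair 0 (max a 1)) (sgn_pair _ _)
  refine ⟨t', h1, h2, ?_⟩
  rw [h3]
  funext x
  rw [quad_pair (by omega) (by omega), h.one0, one_mul]
  rcases Nat.eq_zero_or_pos a with rfl | h0
  · rw [Nat.max_eq_right (by omega), h.one1, h.one0]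
  · rw [Nat.max_eq_left h0]

theorem CompF.coord (i : Fin m) : CompF (fun x : Fin m → ℤ => x i) := by
  intro R t h
  have hR := h.le
  have hi := i.2
  obtain ⟨t', h1, h2, h3⟩ := h.copy (a := 2 + (i : ℕ)) (by omega)
  refine ⟨R + 1, t', h1, by omega, h2, R, hR, by omega, ?_⟩
  rw [h3]
  funext x
  exact h.inp i x

theorem CompF.zero : CompF (fun _ : Fin m → ℤ => (0 : ℤ)) := by
  intro R t h
  have hR := h.le
  obtain ⟨t', h1, h2, h3⟩ := h.step (fun _ _ => 0) (fun _ _ => Or.inr (Or.inl rfl))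
  refine ⟨R + 1, t', h1, by omega, h2, R, hR, by omega, ?_⟩
  rw [h3]
  funext x
  unfold quad
  simp

theorem CompF.one : CompF (fun _ : Fin m → ℤ => (1 : ℤ)) := by
  intro R t h
  have hR := h.le
  obtain ⟨t', h1, h2, h3⟩ := h.copy (a := 0) (by omega)
  refine ⟨R + 1, t', h1, by omega, h2, R, hR, by omega, ?_⟩
  rw [h3]
  funext x
  exact h.one0 x

theorem CompF.neg {f : (Fin m → ℤ) → ℤ} (hf : CompF f) : CompF (fun x => - f x) := by
  intro R t h
  obtain ⟨R1, t1, v1, l1, e1, a, ha1, ha2, ha3⟩ := hf R t h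
  obtain ⟨t2, v2, e2, h2⟩ := v1.step (fun i j => - pair 0 a i j) (by
    intro i j
    rcases sgn_pair 0 a i j with h | h | h
    · exact Or.inr (Or.inr (by rw [h]; rfl))
    · exact Or.inr (Or.inl (by rw [h]; rfl))
    · exact Or.inl (by rw [h]))
  refine ⟨R1 + 1, t2, v2, by omega, fun k hk => ?_, R1, by have := v1.le; omega, by omega, ?_⟩
  · rw [e2 k (by omega), e1 k hk]
  · rw [h2]
    funext x
    rw [quad_neg, quad_pair (by omega) ha2, v1.one0, one_mul, ha3]

/-- Two functions at different places. -/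
theorem CompF.two {f g : (Fin m → ℤ) → ℤ} (hf : CompF f) (hg : CompF g) {R : ℕ} {t : ℕ → (Fin m → ℤ) → ℤ}
    (h : Valid R t) : ∃ (R' : ℕ) (t' : ℕ → (Fin m → ℤ) → ℤ), Valid R' t' ∧ R ≤ R' ∧ (∀ k < R, t' k = t k) ∧
      ∃ a b, 2 + m ≤ a ∧ a < b ∧ b < R' ∧ t' a = f ∧ t' b = g := by
  obtain ⟨R1, t1, v1, l1, e1, a, ha1, ha2, ha3⟩ := hf R t h
  obtain ⟨R2, t2, v2, l2, e2, b, hb1, hb2, hb3⟩ := hg R1 t1 v1
  obtain ⟨t3, v3, e3, h3⟩ := v2.copy hb2
  refine ⟨R2 + 1, t3, v3, by omega, fun k hk => ?_, a, R2, ha1, by omega, by omega, ?_, ?_⟩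
  · rw [e3 k (by omega), e2 k (by omega), e1 k hk]
  · rw [e3 a (by omega), e2 a ha2, ha3]
  · rw [h3, hb3]

theorem CompF.add {f g : (Fin m → ℤ) → ℤ} (hf : CompF f) (hg : CompF g) : CompF (fun x => f x + g x) := by
  intro R t h
  obtain ⟨R1, t1, v1, l1, e1, a, b, ha, hab, hb, hfa, hgb⟩ := hf.two hg h
  obtain ⟨t2, v2, e2, h2⟩ := v1.step (fun i j => pair 0 a i j + pair 0 b i j) (by
    intro i j
    unfold pair Sgn
    split_ifs with h1 h2 h2
    · omega
    · right; right; rfl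
    · right; right; rfl
    · right; left; rfl)
  refine ⟨R1 + 1, t2, v2, by omega, fun k hk => ?_, R1, by have := v1.le; omega, by omega, ?_⟩
  · rw [e2 k (by omega), e1 k hk]
  · rw [h2]
    funext x
    rw [quad_add, quad_pair (by omega) (by omega), quad_pair (by omega) hb, v1.one0, one_mul, one_mul, hfa, hgb]

theorem CompF.mul {f g : (Fin m → ℤ) → ℤ} (hf : CompF f) (hg : CompF g) : CompF (fun x => f x * g x) := by
  intro R t h
  obtain ⟨R1, t1, v1, l1, e1, a, b, ha, hab, hb, hfa, hgb⟩ := hf.two hg h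
  obtain ⟨t2, v2, e2, h2⟩ := v1.step (pair a b) (sgn_pair a b)
  refine ⟨R1 + 1, t2, v2, by omega, fun k hk => ?_, R1, by have := v1.le; omega, by omega, ?_⟩
  · rw [e2 k (by omega), e1 k hk]
  · rw [h2]
    funext x
    rw [quad_pair hab hb, hfa, hgb]

theorem CompF.nat (n : ℕ) : CompF (fun _ : Fin m → ℤ => (n : ℤ)) := by
  induction n with
  | zero => exact CompF.zero
  | succ n ih =>
    have h := ih.add CompF.one
    have e : (fun _ : Fin m → ℤ => ((n + 1 : ℕ) : ℤ)) = fun _ => (n : ℤ) + 1 := by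
      funext x
      push_cast
      rfl
    rw [e]
    exact h

theorem CompF.int (n : ℤ) : CompF (fun _ : Fin m → ℤ => n) := by
  rcases Int.eq_nat_or_neg n with ⟨k, rfl | rfl⟩
  · exact CompF.nat k
  · exact (CompF.nat k).neg

theorem CompF.poly (p : MvPolynomial (Fin m) ℤ) : CompF (fun x => MvPolynomial.eval x p) := by
  induction p using MvPolynomial.induction_on with
  | C a =>
    simp only [MvPolynomial.eval_C]
    exact CompF.int a
  | add p q hp hq =>
    simp only [map_add]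
    exact hp.add hq
  | mul_X p i hp =>
    simp only [map_mul, MvPolynomial.eval_X]
    exact hp.mul (CompF.coord i)

theorem CompF.list (l : List ((Fin m → ℤ) → ℤ)) (hl : ∀ f ∈ l, CompF f) :
    ∀ (R : ℕ) (t : ℕ → (Fin m → ℤ) → ℤ), Valid R t → ∃ (R' : ℕ) (t' : ℕ → (Fin m → ℤ) → ℤ),
      Valid R' t' ∧ R ≤ R' ∧ (∀ k < R, t' k = t k) ∧ ∀ f ∈ l, ∃ a, 2 + m ≤ a ∧ a < R' ∧ t' a = f := by
  induction l with
  | nil => exact fun R t h => ⟨R, t, h, le_rfl, fun _ _ => rfl, fun f hf => absurd hf (by simp)⟩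
  | cons g l ih =>
    intro R t h
    obtain ⟨R1, t1, v1, l1, e1, a, ha1, ha2, ha3⟩ := hl g (by simp) R t h
    obtain ⟨R2, t2, v2, l2, e2, h2⟩ := ih (fun f hf => hl f (by simp [hf])) R1 t1 v1
    refine ⟨R2, t2, v2, by omega, fun k hk => by rw [e2 k (by omega), e1 k hk], fun f hf => ?_⟩
    rcases List.mem_cons.1 hf with rfl | hf
    · exact ⟨a, ha1, by omega, by rw [e2 a ha2, ha3]⟩
    · exact h2 f hf

/-- The program without instructions. -/
theorem valid_start (m : ℕ) : Valid (2 + m)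
    (fun k (x : Fin m → ℤ) => if k < 2 then 1 else if h : k - 2 < m then x ⟨k - 2, h⟩ else 0) where
  le := le_rfl
  one0 := fun x => by simp
  one1 := fun x => by simp
  inp := fun i x => by
    have h1 : ¬ (2 + (i : ℕ) < 2) := by omega
    have h2 : 2 + (i : ℕ) - 2 < m := by
      have := i.2
      omega
    rw [if_neg h1, dif_pos h2]
    congr 1
    exact Fin.ext (by simp)
  node := fun k h1 h2 => by omega

/-- A program which computes the polynomials `P i` and `h`. -/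
theorem exists_program (P : Fin m → MvPolynomial (Fin m) ℤ) (h : MvPolynomial (Fin m) ℤ) :
    ∃ (R : ℕ) (t : ℕ → (Fin m → ℤ) → ℤ) (out : Fin m → ℕ) (o : ℕ), Valid R t ∧
      (∀ i, 2 + m ≤ out i ∧ out i < R ∧ ∀ x, t (out i) x = MvPolynomial.eval x (P i)) ∧
      o < R ∧ ∀ x, t o x = MvPolynomial.eval x h := by
  obtain ⟨R, t, v, _, _, h1⟩ := CompF.list
    ((fun x => MvPolynomial.eval x h) :: (List.ofFn fun i : Fin m => fun x => MvPolynomial.eval x (P i))) (by
      intro f hf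
      rcases List.mem_cons.1 hf with rfl | hf
      · exact CompF.poly h
      · obtain ⟨i, rfl⟩ := List.mem_ofFn.1 hf
        exact CompF.poly (P i)) _ _ (valid_start m)
  have h2 : ∀ i : Fin m, ∃ a, 2 + m ≤ a ∧ a < R ∧ t a = fun x => MvPolynomial.eval x (P i) := fun i =>
    h1 _ (List.mem_cons_of_mem _ (List.mem_ofFn.2 ⟨i, rfl⟩))
  choose out ho using h2
  obtain ⟨o, _, ho2, ho3⟩ := h1 _ List.mem_cons_self
  exact ⟨R, t, out, o, v, fun i => ⟨(ho i).1, (ho i).2.1, fun x => congrFun (ho i).2.2 x⟩, ho2, fun x => congrFun ho3 x⟩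

end MP_f4ff90_agQ
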